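import Mathlib

namespace Pool.Agent.Helper59.CG

open SimpleGraph

universe u

variable {V : Type u} {T : SimpleGraph V}

theorem path_length_eq_dist (hT : T.IsTree) {w z : V} (p : T.Walk w z) (hp : p.IsPath) :
    p.length = T.dist w z := by
  obtain ⟨q, hq, hq'⟩ := (hT.connected w z).exists_path_of_dist
  have := hT.isAcyclic.path_unique ⟨p, hp⟩ ⟨q, hq⟩
  have h2 : p = q := congrArg Subtype.val this
  rw [h2, hq']

theorem dist_split (hT : T.IsTree) {w z x : V} (p : T.Walk w z) (hp : p.IsPath)
    (hx : x ∈ p.support) : T.dist w z = T.dist w x + T.dist x z := by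
  classical
  have h1 := path_length_eq_dist hT _ (hp.takeUntil hx)
  have h2 := path_length_eq_dist hT _ (hp.dropUntil hx)
  have h3 := path_length_eq_dist hT _ hp
  have h4 : p.length = (p.takeUntil x hx).length + (p.dropUntil x hx).length := by
    rw [← Walk.length_append, Walk.take_spec]
  omega

/-- Points on the two sides of an edge. -/
theorem side_add (hT : T.IsTree) {p c u w : V} (h : T.Adj p c)
    (hu : T.dist p u = T.dist c u + 1) (hw : T.dist c w = T.dist p w + 1) :
    T.dist w u = T.dist w p + 1 + T.dist c u := by
  obtain ⟨a, ha, ha'⟩ := (hT.connected w p).exists_path_of_dist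
  obtain ⟨b, hb, hb'⟩ := (hT.connected c u).exists_path_of_dist
  have key : (a.append (Walk.cons h b)).IsPath := by
    rw [Walk.isPath_def, Walk.support_append, Walk.support_cons, List.tail_cons,
      List.nodup_append]
    refine ⟨ha.support_nodup, hb.support_nodup, ?_⟩
    rintro z hz1 z' hz2 rfl
    have e1 := dist_split hT a ha hz1
    have e2 := dist_split hT b hb hz2
    have t1 : T.dist c w ≤ T.dist c z + T.dist z w := hT.connected.dist_triangle
    have t2 : T.dist p u ≤ T.dist p z + T.dist z u := hT.connected.dist_triangle
    have s1 : T.dist p w = T.dist w p := T.dist_comm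
    have s2 : T.dist w z = T.dist z w := T.dist_comm
    have s3 : T.dist z p = T.dist p z := T.dist_comm
    omega
  have := path_length_eq_dist hT _ key
  rw [Walk.length_append, Walk.length_cons, ha', hb'] at this
  omega

/-- Far descendants of `c` are not seen by other vertices of depth at most that of `c`. -/
theorem dist_lt_of_desc (hT : T.IsTree) {r p c u c' : V} (h : T.Adj p c)
    (hr : T.dist r c = T.dist r p + 1) (hu : T.dist p u = T.dist c u + 1)
    (hc' : T.dist r c' ≤ T.dist r c) (hne : c' ≠ c) : T.dist c u < T.dist c' u := by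
  rcases hT.dist_eq_dist_add_one_of_adj c' h with h1 | h1
  · -- c' on the side of c
    have e := side_add hT (p := p) (c := c) (u := c') (w := r) h
      (by rw [T.dist_comm, h1, T.dist_comm]) (by rw [T.dist_comm, hr, T.dist_comm])
    have : 0 < T.dist c c' := (hT.connected.pos_dist_of_ne (Ne.symm hne))
    omega
  · have e := side_add hT (p := p) (c := c) (u := u) (w := c') h hu
      (by rw [T.dist_comm, h1, T.dist_comm])
    omega

/-- The neighbour of `c` in the direction of the root. -/
theorem exists_parent (hT : T.IsTree) (r c : V) (hc : c ≠ r) :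
    ∃ p, T.Adj p c ∧ T.dist r c = T.dist r p + 1 := by
  obtain ⟨q, hq⟩ := hT.connected.exists_walk_length_eq_dist c r
  cases q with
  | nil => exact absurd rfl hc
  | cons h b =>
    rename_i v
    refine ⟨v, h.symm, ?_⟩
    rw [Walk.length_cons] at hq
    have h1 : T.dist v r ≤ b.length := dist_le b
    have s1 : T.dist c r = T.dist r c := T.dist_comm
    have s2 : T.dist v r = T.dist r v := T.dist_comm
    rcases hT.dist_eq_dist_add_one_of_adj r h with h2 | h2
    · exact h2
    · omega

end Pool.Agent.Helper59.CG
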