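import Mathlib
import Pool.Agent.Helper59.CG.Tree

namespace Pool.Agent.Helper59.CG

open SimpleGraph

universe u

/-- In a properly 2-coloured connected graph the parity of the distance is the comparison of
colours. -/
theorem even_dist_iff {V : Type u} {T : SimpleGraph V} (hc : T.Connected) (col : V → Bool)
    (hcol : ∀ ⦃p c⦄, T.Adj p c → col p ≠ col c) (a b : V) :
    Even (T.dist a b) ↔ (col a = col b) := by
  obtain ⟨w, hw⟩ := hc.exists_walk_length_eq_dist a b
  rw [← hw]
  clear hw
  induction w with
  | nil => simp
  | cons h p ih =>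
    rw [Walk.length_cons, Nat.even_add_one, ih]
    have := hcol h
    rename_i x y z
    cases hx : col x <;> cases hy : col y <;> cases hz : col z <;> simp_all

theorem bool_aux (a b c : Bool) (h : (a = b) ↔ (a = c)) : b = c := by
  cases a <;> cases b <;> cases c <;> simp_all

section

variable {V : Type u} (T : SimpleGraph V) (col : V → Bool)
variable {B : Type*} [Ring B] {Y : Type*} [AddCommGroup Y] [Module B Y]
variable {Z : Type*} [AddCommGroup Z] [Module B Z]

/-- `c` can be the centre of a ball of radius `r` (in the subdivided tree): its colour is `true`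
exactly when `r` is even. -/
def Typ (r : ℕ) (c : V) : Prop := col c = true ↔ Even r

/-- Elements all of whose nonzero components lie in the ball of radius `r` about `c`. -/
def Xc (κ : V → Y →ₗ[B] Z) (c : V) (r : ℕ) : Submodule B Y where
  carrier := {x | ∀ u, κ u x ≠ 0 → T.dist c u ≤ r}
  zero_mem' := fun u h => absurd (map_zero _) h
  add_mem' := by
    intro a b ha' hb' u h
    by_cases h1 : κ u a = 0
    · refine hb' u (fun h2 => h ?_)
      rw [map_add, h1, h2, add_zero]
    · exact ha' u h1
  smul_mem' := by
    intro c x hx' u h
    refine hx' u (fun h2 => h ?_)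
    rw [map_smul, h2, smul_zero]

/-- The part of the ball of radius `r + 1` about `c` coming from balls of radius `r`. -/
def Xp (κ : V → Y →ₗ[B] Z) (c : V) (r : ℕ) : Submodule B Y :=
  ⨆ b, ⨆ (_ : T.Adj b c), Xc T κ b r

variable {T col}

theorem mem_Xc {κ : V → Y →ₗ[B] Z} {c : V} {r : ℕ} {x : Y} :
    x ∈ Xc T κ c r ↔ ∀ u, κ u x ≠ 0 → T.dist c u ≤ r := Iff.rfl

theorem Xc_le_Xp {κ : V → Y →ₗ[B] Z} {b c : V} {r : ℕ} (h : T.Adj b c) :
    Xc T κ b r ≤ Xp T κ c r :=
  le_iSup_of_le b (le_iSup_of_le h le_rfl)

theorem Xc_le_succ (hT : T.Connected) {κ : V → Y →ₗ[B] Z} {b c : V} {r : ℕ}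
    (h : T.Adj b c) : Xc T κ b r ≤ Xc T κ c (r + 1) := by
  intro x hx
  intro u hu
  have h1 := hx u hu
  have h2 : T.dist c u ≤ T.dist c b + T.dist b u := hT.dist_triangle
  have h3 : T.dist c b = 1 := dist_eq_one_iff_adj.2 h.symm
  omega

theorem Xp_le (hT : T.Connected) {κ : V → Y →ₗ[B] Z} {c : V} {r : ℕ} :
    Xp T κ c r ≤ Xc T κ c (r + 1) :=
  iSup_le fun _ => iSup_le fun h => Xc_le_succ hT h

/-- Total sum of a finitely supported family. -/
noncomputable def tot (V : Type u) (Y : Type*) [AddCommGroup Y] : (V →₀ Y) →+ Y :=
  Finsupp.liftAddHom fun _ => AddMonoidHom.id Y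

theorem tot_eq (x : V →₀ Y) : tot V Y x = ∑ c ∈ x.support, x c := by
  rw [tot, Finsupp.liftAddHom_apply]; rfl

theorem tot_mapDomain (f : V → V) (x : V →₀ Y) : tot V Y (x.mapDomain f) = tot V Y x := by
  rw [tot, Finsupp.liftAddHom_apply, Finsupp.liftAddHom_apply]
  exact Finsupp.sum_mapDomain_index (fun _ => rfl) (fun _ _ _ => rfl)

theorem mapDomain_mem (f : V → V) (x : V →₀ Y) (M : Submodule B Y) (c : V)
    (h : ∀ b, x b ≠ 0 → f b = c → x b ∈ M) : (x.mapDomain f) c ∈ M := by
  classical
  rw [Finsupp.mapDomain, Finsupp.sum_apply, Finsupp.sum]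
  refine M.sum_mem fun b hb => ?_
  rw [Finsupp.single_apply]
  split_ifs with hc
  · exact h b (Finsupp.mem_support_iff.1 hb) hc
  · exact M.zero_mem

theorem mapDomain_ne_zero (f : V → V) (x : V →₀ Y) (c : V) (h : (x.mapDomain f) c ≠ 0) :
    ∃ b, x b ≠ 0 ∧ f b = c := by
  by_contra hcon
  push Not at hcon
  apply h
  have := mapDomain_mem (B := ℤ) f x ⊥ c (fun b hb hc => absurd hc (hcon b hb))
  simpa using this

theorem typ_adj {col : V → Bool} (hcol : ∀ ⦃p c⦄, T.Adj p c → col p ≠ col c) {b c : V}
    (h : T.Adj b c) {r : ℕ} : Typ col (r + 1) c ↔ Typ col r b := by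
  have := hcol h
  unfold Typ
  rw [Nat.even_add_one]
  cases hb : col b <;> cases hc : col c <;> simp_all

theorem typ_succ {col : V → Bool} {c : V} {r : ℕ} : Typ col (r + 1) c ↔ ¬ Typ col r c := by
  unfold Typ
  rw [Nat.even_add_one]
  tauto

/-- KEY LEMMA. -/
theorem key_lemma (hT : T.IsTree) (hcol : ∀ ⦃p c⦄, T.Adj p c → col p ≠ col c)
    (κ : V → Y →ₗ[B] Z) (hκ : ∀ u, col u = false → κ u = 0) (r : ℕ) (ρ : V)
    (D : ℕ) : ∀ (x y : V →₀ Y), (∀ c, x c ∈ Xc T κ c (r + 1)) →
      (∀ c, x c ≠ 0 → Typ col (r + 1) c) → (∀ b, y b ∈ Xc T κ b r) →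
      (∀ b, y b ≠ 0 → Typ col r b) → (∀ c, x c ≠ 0 → T.dist ρ c ≤ D) →
      (∀ b, y b ≠ 0 → T.dist ρ b ≤ D) → tot V Y x = tot V Y y →
      ∀ c, x c ∈ Xp T κ c r := by
  classical
  have hcon := hT.connected
  induction D with
  | zero =>
    intro x y hx hxt hy hyt hxD hyD hs c
    by_cases hc : x c = 0
    · rw [hc]; exact Submodule.zero_mem _
    exfalso
    have hc0 : ρ = c := by
      have := hxD c hc
      exact hcon.dist_eq_zero_iff.1 (by omega)
    subst hc0
    have hy0 : y = 0 := by
      ext b
      by_contra hb
      have hb' : y b ≠ 0 := hb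
      have h1 : ρ = b := hcon.dist_eq_zero_iff.1 (by have := hyD b hb'; omega)
      subst h1
      exact (typ_succ.1 (hxt ρ hc)) (hyt ρ hb')
    have hx0 : x = Finsupp.single ρ (x ρ) := by
      ext b
      rw [Finsupp.single_apply]
      split_ifs with h1
      · rw [h1]
      · by_contra hb
        exact h1 (hcon.dist_eq_zero_iff.1 (by have := hxD b hb; omega))
    rw [hy0, map_zero, hx0, tot, Finsupp.liftAddHom_apply_single] at hs
    exact hc hs
  | succ D ih =>
    intro x y hx hxt hy hyt hxD hyD hs
    -- parent function
    have hpar : ∀ c, ∃ p, c ≠ ρ → T.Adj p c ∧ T.dist ρ c = T.dist ρ p + 1 := by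
      intro c
      by_cases h : c = ρ
      · exact ⟨c, fun h' => absurd h h'⟩
      · obtain ⟨p, hp⟩ := exists_parent hT ρ c h
        exact ⟨p, fun _ => hp⟩
    choose par hpar using hpar
    have hparD : ∀ c, T.dist ρ c = D + 1 → T.Adj (par c) c ∧ T.dist ρ (par c) = D := by
      intro c hc
      have hne : c ≠ ρ := by
        rintro rfl
        rw [T.dist_self] at hc
        omega
      have := hpar c hne
      exact ⟨this.1, by omega⟩
    -- types at depth D + 1
    have htyp : (∀ c, T.dist ρ c = D + 1 → Typ col (r + 1) c) ∨
        (∀ c, T.dist ρ c = D + 1 → Typ col r c) := by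
      by_cases h : (∃ c, T.dist ρ c = D + 1 ∧ Typ col r c)
      · right
        obtain ⟨c0, h0, h1⟩ := h
        intro c hc
        have e1 := even_dist_iff hcon col hcol ρ c0
        have e2 := even_dist_iff hcon col hcol ρ c
        rw [h0] at e1
        rw [hc] at e2
        have e3 : (col ρ = col c0) ↔ (col ρ = col c) := by rw [← e1, ← e2]
        have e4 : col c0 = col c := bool_aux _ _ _ e3
        unfold Typ at h1 ⊢
        rw [← e4]; exact h1
      · left
        push Not at h
        intro c hc
        exact typ_succ.2 (h c hc)
    rcases htyp with hty | hty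
    · -- top elements are centres of radius r + 1
      have hyD' : ∀ b, y b ≠ 0 → T.dist ρ b ≤ D := by
        intro b hb
        have h1 := hyD b hb
        by_contra h2
        have h3 : T.dist ρ b = D + 1 := by omega
        exact typ_succ.1 (hty b h3) (hyt b hb)
      have hmove : ∀ c, T.dist ρ c = D + 1 → x c ∈ Xc T κ (par c) r := by
        intro c hc
        obtain ⟨hadj, hpD⟩ := hparD c hc
        intro u hu
        have hcu := hx c u hu
        rcases hT.dist_eq_dist_add_one_of_adj u hadj with h1 | h1
        · -- descendant
          have h1' : T.dist (par c) u = T.dist c u + 1 := by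
            rw [T.dist_comm, h1, T.dist_comm]
          have hcolu : col u = true := by
            by_contra h2
            have h3 : col u = false := by simpa using h2
            exact hu (by rw [hκ u h3]; rfl)
          by_cases h2 : T.dist c u = r + 1
          · exfalso
            apply hu
            have hs' := congrArg (κ u) hs
            rw [tot_eq, tot_eq, map_sum, map_sum] at hs'
            have hy0 : ∑ b ∈ y.support, κ u (y b) = 0 := by
              refine Finset.sum_eq_zero fun b hb => ?_
              by_contra h3
              have h4 := hy b u h3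
              have hb0 : y b ≠ 0 := Finsupp.mem_support_iff.1 hb
              have hne : b ≠ c := by
                rintro rfl
                have := hyD' b hb0
                omega
              have := dist_lt_of_desc hT (r := ρ) hadj (by omega) h1'
                (by have := hyD' b hb0; omega) hne
              omega
            rw [hy0] at hs'
            by_cases hxc : x c = 0
            · rw [hxc, map_zero]
            rw [← hs', Finset.sum_eq_single c]
            · intro b hb hne
              by_contra h3
              have h4 := hx b u h3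
              have hb0 : x b ≠ 0 := Finsupp.mem_support_iff.1 hb
              have := dist_lt_of_desc hT (r := ρ) hadj (by omega) h1'
                (by have := hxD b hb0; omega) hne
              omega
            · intro h3
              exact absurd (Finsupp.mem_support_iff.2 hxc) h3
          · -- parity
            have h3 := even_dist_iff hcon col hcol c u
            have h4 := hty c hc
            unfold Typ at h4
            have h5 : Even (T.dist c u) ↔ Even (r + 1) := by
              rw [h3, hcolu]; exact h4
            have h6 : T.dist c u ≠ r := by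
              intro h7
              rw [h7] at h5
              rw [Nat.even_add_one] at h5
              tauto
            omega
        · have h1' : T.dist c u = T.dist (par c) u + 1 := by
            rw [T.dist_comm, h1, T.dist_comm]
          omega
      set x1 := x.filter (fun c => T.dist ρ c ≤ D) with hx1
      set x2 := x.filter (fun c => ¬ T.dist ρ c ≤ D) with hx2
      have hxs : x = x1 + x2 := (Finsupp.filter_add_filter_not x _).symm
      have hx2c : ∀ c, x2 c ≠ 0 → x2 c = x c ∧ T.dist ρ c = D + 1 := by
        intro c hc
        rw [hx2, Finsupp.filter_apply] at hc ⊢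
        split_ifs at hc ⊢ with h1
        · exact absurd rfl hc
        · exact ⟨rfl, by have := hxD c hc; omega⟩
      set y' := y - x2.mapDomain par with hy'
      have hx1c : ∀ c, x1 c ≠ 0 → x1 c = x c ∧ T.dist ρ c ≤ D := by
        intro c hc
        rw [hx1, Finsupp.filter_apply] at hc ⊢
        split_ifs at hc ⊢ with h1
        · exact ⟨rfl, h1⟩
        · exact absurd rfl hc
      have main := ih x1 y' ?_ ?_ ?_ ?_ ?_ ?_ ?_
      · intro c
        by_cases h1 : T.dist ρ c ≤ D
        · have := main c
          rw [hx1, Finsupp.filter_apply, if_pos h1] at this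
          exact this
        · by_cases h2 : x c = 0
          · rw [h2]; exact Submodule.zero_mem _
          · have h3 := hxD c h2
            have h4 : T.dist ρ c = D + 1 := by omega
            exact Xc_le_Xp (hparD c h4).1 (hmove c h4)
      · intro c
        by_cases h1 : x1 c = 0
        · rw [h1]; exact Submodule.zero_mem _
        · rw [(hx1c c h1).1]; exact hx c
      · intro c hc
        have := hx1c c hc
        exact hxt c (by rw [← this.1]; exact hc)
      · intro b
        rw [hy', Finsupp.sub_apply]
        refine Submodule.sub_mem _ (hy b) (mapDomain_mem _ _ _ _ fun c hc hcb => ?_)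
        have h1 := hx2c c hc
        rw [h1.1, ← hcb]
        exact hmove c h1.2
      · intro b hb
        rw [hy', Finsupp.sub_apply] at hb
        by_cases h1 : y b = 0
        · rw [h1, zero_sub, neg_ne_zero] at hb
          obtain ⟨c, hc, hcb⟩ := mapDomain_ne_zero _ _ _ hb
          have h2 := hx2c c hc
          have h3 := (hparD c h2.2).1
          rw [hcb] at h3
          exact (typ_adj hcol h3).1 (hty c h2.2)
        · exact hyt b h1
      · intro c hc
        exact (hx1c c hc).2
      · intro b hb
        rw [hy', Finsupp.sub_apply] at hb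
        by_cases h1 : y b = 0
        · rw [h1, zero_sub, neg_ne_zero] at hb
          obtain ⟨c, hc, hcb⟩ := mapDomain_ne_zero _ _ _ hb
          have h2 := hx2c c hc
          have h3 := (hparD c h2.2).2
          rw [hcb] at h3
          omega
        · exact hyD' b h1
      · rw [hy', map_sub, tot_mapDomain, ← hs, hxs, map_add, add_sub_cancel_right]
    · -- top elements are centres of radius r
      have hxD' : ∀ c, x c ≠ 0 → T.dist ρ c ≤ D := by
        intro c hc
        have h1 := hxD c hc
        by_contra h2
        have h3 : T.dist ρ c = D + 1 := by omega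
        exact typ_succ.1 (hxt c hc) (hty c h3)
      set y1 := y.filter (fun c => T.dist ρ c ≤ D) with hy1
      set y2 := y.filter (fun c => ¬ T.dist ρ c ≤ D) with hy2
      have hys : y = y1 + y2 := (Finsupp.filter_add_filter_not y _).symm
      have hy2c : ∀ c, y2 c ≠ 0 → y2 c = y c ∧ T.dist ρ c = D + 1 := by
        intro c hc
        rw [hy2, Finsupp.filter_apply] at hc ⊢
        split_ifs at hc ⊢ with h1
        · exact absurd rfl hc
        · exact ⟨rfl, by have := hyD c hc; omega⟩
      have hy1c : ∀ c, y1 c ≠ 0 → y1 c = y c ∧ T.dist ρ c ≤ D := by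
        intro c hc
        rw [hy1, Finsupp.filter_apply] at hc ⊢
        split_ifs at hc ⊢ with h1
        · exact ⟨rfl, h1⟩
        · exact absurd rfl hc
      set x' := x - y2.mapDomain par with hx'
      have hmd : ∀ c, (y2.mapDomain par) c ∈ Xp T κ c r := by
        intro c
        refine mapDomain_mem _ _ _ _ fun b hb hbc => ?_
        have h1 := hy2c b hb
        have h2 := (hparD b h1.2).1
        rw [hbc] at h2
        rw [h1.1]
        exact Xc_le_Xp h2.symm (hy b)
      have main := ih x' y1 ?_ ?_ ?_ ?_ ?_ ?_ ?_
      · intro c
        have := Submodule.add_mem _ (main c) (hmd c)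
        rw [hx', Finsupp.sub_apply, sub_add_cancel] at this
        exact this
      · intro c
        rw [hx', Finsupp.sub_apply]
        exact Submodule.sub_mem _ (hx c) (Xp_le hcon (hmd c))
      · intro c hc
        rw [hx', Finsupp.sub_apply] at hc
        by_cases h1 : x c = 0
        · rw [h1, zero_sub, neg_ne_zero] at hc
          obtain ⟨b, hb, hbc⟩ := mapDomain_ne_zero _ _ _ hc
          have h2 := hy2c b hb
          have h3 := (hparD b h2.2).1
          rw [hbc] at h3
          exact (typ_adj hcol h3.symm).2 (hty b h2.2)
        · exact hxt c h1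
      · intro b
        by_cases h1 : y1 b = 0
        · rw [h1]; exact Submodule.zero_mem _
        · rw [(hy1c b h1).1]; exact hy b
      · intro b hb
        have := hy1c b hb
        exact hyt b (by rw [← this.1]; exact hb)
      · intro c hc
        rw [hx', Finsupp.sub_apply] at hc
        by_cases h1 : x c = 0
        · rw [h1, zero_sub, neg_ne_zero] at hc
          obtain ⟨b, hb, hbc⟩ := mapDomain_ne_zero _ _ _ hc
          have h2 := hy2c b hb
          have h3 := (hparD b h2.2).2
          rw [hbc] at h3
          omega
        · exact hxD' c h1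
      · intro c hc
        exact (hy1c c hc).2
      · rw [hx', map_sub, tot_mapDomain, hs, hys, map_add, add_sub_cancel_right]

end

end Pool.Agent.Helper59.CG
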