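import Mathlib
import Pool.Agent.Helper59.CG.KL

namespace Pool.Agent.Helper59.CG

section

variable {B : Type*} [CommRing B] {Γ : Type*} [Group Γ] {Y : Type*} [AddCommGroup Y] [Module B Y]
variable {Φ : Type*}

/-- The total sum of a finitely supported family (arbitrary index types). -/
noncomputable def total (Φ : Type*) (Y : Type*) [AddCommGroup Y] : (Φ →₀ Y) →+ Y :=
  Finsupp.liftAddHom fun _ => AddMonoidHom.id Y

theorem total_eq (x : Φ →₀ Y) : total Φ Y x = ∑ c ∈ x.support, x c := by
  rw [total, Finsupp.liftAddHom_apply]; rfl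

@[simp] theorem total_single (c : Φ) (y : Y) : total Φ Y (Finsupp.single c y) = y := by
  rw [total, Finsupp.liftAddHom_apply_single]; rfl

/-- A `Γ`-module graded by the `Γ`-set `Φ`: it is the direct sum of the `M c`, and `g` maps
`M c` into `M (g • c)`. -/
structure IsGraded [MulAction Γ Φ] (ρ : Γ →* Module.End B Y) (M : Φ → Submodule B Y) : Prop where
  exists_fam : ∀ y, ∃ f : Φ →₀ Y, (∀ c, f c ∈ M c) ∧ total Φ Y f = y
  unique : ∀ f : Φ →₀ Y, (∀ c, f c ∈ M c) → total Φ Y f = 0 → f = 0
  map : ∀ (g : Γ) (c : Φ) (y : Y), y ∈ M c → ρ g y ∈ M (g • c)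

/-- `H_1 = 0` for a free group, in terms of a basis. -/
def TorFree {J ι : Type*} [Group J] (ρ : J →* Module.End B Y) (b : FreeGroupBasis ι J) : Prop :=
  ∀ z : ι →₀ Y, (∑ i ∈ z.support, (ρ (b i) (z i) - z i)) = 0 → z = 0

/-- It passes to submodules. -/
theorem TorFree.of_injective {J ι X : Type*} [Group J] [AddCommGroup X] [Module B X]
    {ρ : J →* Module.End B Y} {σ : J →* Module.End B X} {b : FreeGroupBasis ι J}
    (h : TorFree ρ b) (f : X →ₗ[B] Y) (hf : Function.Injective f)
    (hfe : ∀ g x, f (σ g x) = ρ g (f x)) : TorFree σ b := by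
  intro z hz
  have h1 := h (z.mapRange f (map_zero f)) ?_
  · ext i
    have := DFunLike.congr_fun h1 i
    rw [Finsupp.mapRange_apply, Finsupp.zero_apply, ← map_zero f] at this
    exact hf this
  · have hsupp : (z.mapRange f (map_zero f)).support = z.support := by
      apply Finsupp.support_mapRange_of_injective _ _ hf
    rw [hsupp]
    have : f (∑ i ∈ z.support, (σ (b i) (z i) - z i)) = 0 := by rw [hz, map_zero]
    rw [map_sum] at this
    rw [← this]
    refine Finset.sum_congr rfl fun i _ => ?_
    rw [map_sub, hfe, Finsupp.mapRange_apply]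

theorem head_of_norm_le {ι : Type*} [DecidableEq ι] (l : ι × Bool) (h : FreeGroup ι)
    (hl : (FreeGroup.mk [l] * h).norm ≤ h.norm) : h.toWord.head? = some (l.1, !l.2) := by
  have e : (FreeGroup.mk [l] * h).toWord = FreeGroup.reduce (l :: h.toWord) := by
    conv_lhs => rw [← FreeGroup.mk_toWord (x := h), FreeGroup.mul_mk, FreeGroup.toWord_mk]
    rfl
  unfold FreeGroup.norm at hl
  rw [e, FreeGroup.reduce.cons, FreeGroup.reduce_toWord] at hl
  cases hw : h.toWord with
  | nil => rw [hw] at hl; simp at hl
  | cons hd tl =>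
    rw [hw] at hl
    simp only [List.head?_cons, Option.some.injEq]
    dsimp only at hl
    split_ifs at hl with h1
    · obtain ⟨h2, h3⟩ := h1
      ext
      · exact h2.symm
      · rw [h3]; simp
    · simp at hl

theorem torFree_of_graded {J ι : Type*} [Group J] [MulAction J Φ] (b : FreeGroupBasis ι J)
    (ρ : J →* Module.End B Y) (hfree : ∀ (j : J) (φ : Φ), j • φ = φ → j = 1)
    (M : Φ → Submodule B Y) (hM : IsGraded ρ M) : TorFree ρ b := by
  classical
  intro z hz
  -- choose decompositions
  choose F hFM hFt using hM.exists_fam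
  have hF0 : F 0 = 0 := hM.unique _ (hFM 0) (hFt 0)
  set f : ι → Φ →₀ Y := fun i => F (z i) with hf
  -- length of a point
  have hrep : ∃ h : Φ → FreeGroup ι, ∀ (j : J) (φ : Φ), h (j • φ) = b.repr j * h φ := by
    have : ∀ φ : Φ, ∃ j : J, j • (Quotient.out (Quotient.mk (MulAction.orbitRel J Φ) φ)) = φ := by
      intro φ
      have h1 : (MulAction.orbitRel J Φ).r
          (Quotient.out (Quotient.mk (MulAction.orbitRel J Φ) φ)) φ :=
        Quotient.exact (Quotient.out_eq _)
      obtain ⟨j, hj⟩ := h1
      refine ⟨j⁻¹, ?_⟩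
      have hj' : j • φ = (Quotient.out (Quotient.mk (MulAction.orbitRel J Φ) φ)) := hj
      rw [← hj', inv_smul_smul]
    choose k hk using this
    refine ⟨fun φ => b.repr (k φ), fun j φ => ?_⟩
    have h2 : (Quotient.mk (MulAction.orbitRel J Φ) (j • φ)) =
        Quotient.mk (MulAction.orbitRel J Φ) φ := Quotient.sound ⟨j, rfl⟩
    have h3 := hk (j • φ)
    rw [h2] at h3
    have h4 := hk φ
    rw [← map_mul]
    set o := Quotient.out (Quotient.mk (MulAction.orbitRel J Φ) φ)
    have h5 : ((j * k φ)⁻¹ * k (j • φ)) • o = o := by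
      rw [mul_smul, h3, mul_inv_rev, mul_smul, inv_smul_smul, inv_smul_eq_iff, h4]
    have h6 := hfree _ _ h5
    exact congrArg b.repr (inv_mul_eq_one.1 h6).symm
  obtain ⟨h, hh⟩ := hrep
  -- the components
  let C : ι × Bool → Φ → Y := fun l ψ =>
    if l.2 = true then - f l.1 ψ else ρ (b l.1) (f l.1 ((b l.1)⁻¹ • ψ))
  have hfsum : ∀ ψ, ∑ i ∈ z.support, (C (i, true) ψ + C (i, false) ψ) = 0 := by
    -- the family of the relation
    let G : Φ →₀ Y := ∑ i ∈ z.support,
      ((Finsupp.mapDomain (fun φ => b i • φ)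
        ((f i).mapRange (ρ (b i)) (map_zero _))) - f i)
    have hinj : ∀ i, Function.Injective (fun φ : Φ => b i • φ) := fun i => MulAction.injective _
    have hmd : ∀ i ψ, (Finsupp.mapDomain (fun φ => b i • φ)
        ((f i).mapRange (ρ (b i)) (map_zero _))) ψ = ρ (b i) (f i ((b i)⁻¹ • ψ)) := by
      intro i ψ
      have := Finsupp.mapDomain_apply (hinj i) ((f i).mapRange (ρ (b i)) (map_zero _))
        ((b i)⁻¹ • ψ)
      rw [smul_inv_smul] at this
      rw [this, Finsupp.mapRange_apply]
    have hG0 : G = 0 := by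
      apply hM.unique
      · intro c
        rw [Finsupp.finsetSum_apply]
        refine Submodule.sum_mem _ fun i _ => ?_
        rw [Finsupp.sub_apply, hmd]
        refine Submodule.sub_mem _ ?_ (hFM _ _)
        have := hM.map (b i) ((b i)⁻¹ • c) _ (hFM (z i) ((b i)⁻¹ • c))
        rwa [smul_inv_smul] at this
      · rw [map_sum, ← hz]
        refine Finset.sum_congr rfl fun i _ => ?_
        rw [map_sub, hFt]
        congr 1
        have e1 : total Φ Y (Finsupp.mapDomain (fun φ => b i • φ)
            ((f i).mapRange (ρ (b i)) (map_zero _))) =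
            total Φ Y ((f i).mapRange (ρ (b i)) (map_zero _)) := by
          rw [total, Finsupp.liftAddHom_apply, Finsupp.liftAddHom_apply]
          exact Finsupp.sum_mapDomain_index (fun _ => rfl) (fun _ _ _ => rfl)
        rw [e1]
        have e2 : total Φ Y ((f i).mapRange (ρ (b i)) (map_zero _)) =
            ρ (b i) (total Φ Y (f i)) := by
          rw [total, Finsupp.liftAddHom_apply, Finsupp.liftAddHom_apply,
            Finsupp.sum_mapRange_index (fun _ => rfl), Finsupp.sum, Finsupp.sum, map_sum]
          rfl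
        rw [e2, hFt]
    intro ψ
    have := DFunLike.congr_fun hG0 ψ
    rw [Finsupp.finsetSum_apply, Finsupp.zero_apply] at this
    rw [← this]
    refine Finset.sum_congr rfl fun i _ => ?_
    rw [Finsupp.sub_apply, hmd]
    simp only [C, if_true, Bool.false_eq_true, if_false]
    abel
  by_contra hne
  -- some component is nonzero
  have hz0 : ∃ i, z i ≠ 0 := by
    by_contra hcon
    push Not at hcon
    exact hne (Finsupp.ext hcon)
  obtain ⟨i0, hi0⟩ := hz0
  have hf0 : f i0 ≠ 0 := by
    intro h0
    apply hi0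
    have := hFt (z i0)
    rw [show F (z i0) = 0 from h0, map_zero] at this
    exact this.symm
  obtain ⟨φ0, hφ0⟩ : ∃ φ, f i0 φ ≠ 0 := by
    by_contra hcon
    push Not at hcon
    exact hf0 (Finsupp.ext hcon)
  -- the finite set of vertices with a nonzero component
  set A : Finset Φ := z.support.biUnion (fun i => (f i).support ∪
    (f i).support.image (fun φ => b i • φ)) with hA
  have hzi : ∀ i, i ∉ z.support → f i = 0 := by
    intro i hi
    have : z i = 0 := Finsupp.notMem_support_iff.1 hi
    simp only [hf, this, hF0]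
  have hmemA : ∀ l ψ, C l ψ ≠ 0 → ψ ∈ A := by
    intro l ψ hl
    by_cases hls : l.1 ∈ z.support
    · refine Finset.mem_biUnion.2 ⟨l.1, hls, Finset.mem_union.2 ?_⟩
      simp only [C] at hl
      split_ifs at hl with h1
      · left
        exact Finsupp.mem_support_iff.2 (fun h2 => hl (by rw [h2, neg_zero]))
      · right
        refine Finset.mem_image.2 ⟨(b l.1)⁻¹ • ψ, ?_, smul_inv_smul _ _⟩
        exact Finsupp.mem_support_iff.2 (fun h2 => hl (by rw [h2, map_zero]))
    · exfalso
      apply hl
      simp only [C]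
      rw [hzi _ hls]
      simp
  have hflip : ∀ l ψ, C l ψ ≠ 0 →
      C (l.1, !l.2) ((if l.2 = true then b l.1 else (b l.1)⁻¹) • ψ) ≠ 0 := by
    rintro ⟨i, ε⟩ ψ hl
    cases ε with
    | true =>
      simp only [C, if_true] at hl
      have h1 : f i ψ ≠ 0 := fun h2 => hl (by rw [h2, neg_zero])
      simp only [C, if_true, Bool.not_true, Bool.false_eq_true, if_false, inv_smul_smul]
      intro h2
      apply h1
      have h3 := congrArg (ρ (b i)⁻¹) h2
      rw [map_zero, ← Module.End.mul_apply, ← map_mul, inv_mul_cancel, map_one,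
        Module.End.one_apply] at h3
      exact h3
    | false =>
      simp only [C, Bool.false_eq_true, if_false] at hl
      simp only [C, Bool.not_false, if_true, Bool.false_eq_true, if_false]
      intro h2
      apply hl
      rw [neg_eq_zero.1 h2, map_zero]
  have hhl : ∀ (l : ι × Bool) ψ, h ((if l.2 = true then b l.1 else (b l.1)⁻¹) • ψ) =
      FreeGroup.mk [l] * h ψ := by
    rintro ⟨i, ε⟩ ψ
    rw [hh]
    congr 1
    cases ε with
    | true =>
      simp only [if_true]
      rw [FreeGroupBasis.repr_apply_coe]; rfl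
    | false =>
      simp only [Bool.false_eq_true, if_false]
      rw [map_inv, FreeGroupBasis.repr_apply_coe]; rfl
  -- the set of vertices carrying a nonzero component
  set A' : Finset Φ := A.filter (fun ψ => ∃ l, C l ψ ≠ 0) with hA'
  have hne' : A'.Nonempty := by
    have hc : C (i0, true) φ0 ≠ 0 := by
      simp only [C, if_true]
      exact neg_ne_zero.2 hφ0
    exact ⟨φ0, Finset.mem_filter.2 ⟨hmemA _ _ hc, _, hc⟩⟩
  obtain ⟨ψ, hψ, hmax⟩ := Finset.exists_max_image A' (fun ψ => (h ψ).norm) hne'
  obtain ⟨_, l0, hl0⟩ := Finset.mem_filter.1 hψ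
  have huniq : ∀ l, C l ψ ≠ 0 → (h ψ).toWord.head? = some (l.1, !l.2) := by
    intro l hl
    apply head_of_norm_le
    rw [← hhl]
    refine hmax _ (Finset.mem_filter.2 ⟨hmemA _ _ (hflip l ψ hl), _, hflip l ψ hl⟩)
  have hl0u : ∀ l, C l ψ ≠ 0 → l = l0 := by
    intro l hl
    have e1 := huniq l hl
    rw [huniq l0 hl0, Option.some.injEq, Prod.mk.injEq] at e1
    ext
    · exact e1.1.symm
    · have := e1.2
      simpa using this.symm
  have hl0s : l0.1 ∈ z.support := by
    by_contra hls
    apply hl0
    simp only [C]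
    rw [hzi _ hls]
    simp
  have hsum := hfsum ψ
  rw [Finset.sum_eq_single l0.1] at hsum
  · rcases hl0e : l0 with ⟨i, ε⟩
    rw [hl0e] at hsum hl0 hl0u
    cases ε with
    | true =>
      have : C (i, false) ψ = 0 := by
        by_contra h1
        have := hl0u _ h1
        simp at this
      rw [this, add_zero] at hsum
      exact hl0 hsum
    | false =>
      have : C (i, true) ψ = 0 := by
        by_contra h1
        have := hl0u _ h1
        simp at this
      rw [this, zero_add] at hsum
      exact hl0 hsum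
  · intro i _ hi
    have h1 : C (i, true) ψ = 0 := by
      by_contra h2
      exact hi (by rw [← hl0u _ h2])
    have h2 : C (i, false) ψ = 0 := by
      by_contra h2
      exact hi (by rw [← hl0u _ h2])
    rw [h1, h2, add_zero]
  · intro h1
    exact absurd hl0s h1

end

end Pool.Agent.Helper59.CG
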