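import Mathlib
import Pool.Agent.Helper59.CG.Graded

namespace Pool.Agent.Helper59.CG

section

variable {B : Type*} [CommRing B] {Γ : Type*} [Group Γ] {Y : Type*} [AddCommGroup Y] [Module B Y]
variable {Φ : Type*} [MulAction Γ Φ] {ρ : Γ →* Module.End B Y} {M : Φ → Submodule B Y}

theorem IsGraded.fam_unique (hM : IsGraded ρ M) (f f' : Φ →₀ Y) (h : ∀ c, f c ∈ M c)
    (h' : ∀ c, f' c ∈ M c) (e : total Φ Y f = total Φ Y f') : f = f' := by
  have := hM.unique (f - f') (fun c => (M c).sub_mem (h c) (h' c)) (by rw [map_sub, e, sub_self])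
  exact sub_eq_zero.1 this

/-- The family of components of `y`. -/
noncomputable def IsGraded.fam (hM : IsGraded ρ M) (y : Y) : Φ →₀ Y :=
  (hM.exists_fam y).choose

theorem IsGraded.fam_mem (hM : IsGraded ρ M) (y : Y) (c : Φ) : hM.fam y c ∈ M c :=
  (hM.exists_fam y).choose_spec.1 c

theorem IsGraded.total_fam (hM : IsGraded ρ M) (y : Y) : total Φ Y (hM.fam y) = y :=
  (hM.exists_fam y).choose_spec.2

theorem IsGraded.fam_eq (hM : IsGraded ρ M) (y : Y) (f : Φ →₀ Y) (h : ∀ c, f c ∈ M c)
    (e : total Φ Y f = y) : hM.fam y = f :=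
  hM.fam_unique _ _ (hM.fam_mem y) h (by rw [hM.total_fam, e])

theorem total_smul (r : B) (f : Φ →₀ Y) : total Φ Y (r • f) = r • total Φ Y f := by
  rw [total, Finsupp.liftAddHom_apply, Finsupp.liftAddHom_apply,
    Finsupp.sum_smul_index' (fun _ => rfl), Finsupp.smul_sum]
  rfl

/-- The component of degree `u`, as a linear map. -/
noncomputable def IsGraded.comp (hM : IsGraded ρ M) (u : Φ) : Y →ₗ[B] Y where
  toFun y := hM.fam y u
  map_add' y z := by
    have : hM.fam (y + z) = hM.fam y + hM.fam z := by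
      apply hM.fam_eq
      · intro c; exact (M c).add_mem (hM.fam_mem y c) (hM.fam_mem z c)
      · rw [map_add, hM.total_fam, hM.total_fam]
    rw [this]; rfl
  map_smul' r y := by
    have : hM.fam (r • y) = r • hM.fam y := by
      apply hM.fam_eq
      · intro c; exact (M c).smul_mem r (hM.fam_mem y c)
      · rw [total_smul, hM.total_fam]
    rw [this]; rfl

theorem IsGraded.comp_apply (hM : IsGraded ρ M) (u : Φ) (y : Y) : hM.comp u y = hM.fam y u := rfl

theorem IsGraded.comp_mem (hM : IsGraded ρ M) (u : Φ) (y : Y) : hM.comp u y ∈ M u :=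
  hM.fam_mem y u

theorem IsGraded.eq_zero (hM : IsGraded ρ M) (y : Y) (h : ∀ u, hM.comp u y = 0) : y = 0 := by
  have : hM.fam y = 0 := Finsupp.ext h
  rw [← hM.total_fam y, this, map_zero]

theorem IsGraded.comp_of_mem (hM : IsGraded ρ M) [DecidableEq Φ] {c : Φ} {y : Y} (h : y ∈ M c)
    (u : Φ) : hM.comp u y = if c = u then y else 0 := by
  have : hM.fam y = Finsupp.single c y := by
    apply hM.fam_eq
    · intro d
      rw [Finsupp.single_apply]
      split_ifs with hd
      · rw [← hd]; exact h
      · exact (M d).zero_mem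
    · exact total_single _ _
  rw [hM.comp_apply, this, Finsupp.single_apply]

theorem IsGraded.mem_of_comp (hM : IsGraded ρ M) {c : Φ} {y : Y}
    (h : ∀ u, u ≠ c → hM.comp u y = 0) : y ∈ M c := by
  classical
  have : y - hM.comp c y = 0 := by
    apply hM.eq_zero
    intro u
    rw [map_sub, hM.comp_of_mem (hM.comp_mem c y) u]
    split_ifs with hu
    · rw [hu, sub_self]
    · rw [h u (Ne.symm hu), sub_zero]
  rw [sub_eq_zero.1 this]
  exact hM.comp_mem c y

theorem IsGraded.comp_smul (hM : IsGraded ρ M) (g : Γ) (u : Φ) (y : Y) :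
    hM.comp (g • u) (ρ g y) = ρ g (hM.comp u y) := by
  classical
  have key : hM.fam (ρ g y) = Finsupp.mapDomain (fun c => g • c)
      ((hM.fam y).mapRange (ρ g) (map_zero _)) := by
    have hinj : Function.Injective (fun c : Φ => g • c) := MulAction.injective g
    have hmd : ∀ c, (Finsupp.mapDomain (fun c => g • c)
        ((hM.fam y).mapRange (ρ g) (map_zero _))) (g • c) = ρ g (hM.fam y c) := by
      intro c
      have := Finsupp.mapDomain_apply hinj ((hM.fam y).mapRange (ρ g) (map_zero _)) c
      rw [this, Finsupp.mapRange_apply]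
    apply hM.fam_eq
    · intro c
      have := hmd (g⁻¹ • c)
      rw [smul_inv_smul] at this
      rw [this]
      have h2 := hM.map g (g⁻¹ • c) _ (hM.fam_mem y (g⁻¹ • c))
      rwa [smul_inv_smul] at h2
    · rw [total, Finsupp.liftAddHom_apply]
      rw [Finsupp.sum_mapDomain_index (fun _ => rfl) (fun _ _ _ => rfl),
        Finsupp.sum_mapRange_index (fun _ => rfl)]
      conv_rhs => rw [← hM.total_fam y, total, Finsupp.liftAddHom_apply, Finsupp.sum, map_sum]
      rfl
  rw [hM.comp_apply, hM.comp_apply, key]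
  have hinj : Function.Injective (fun c : Φ => g • c) := MulAction.injective g
  have := Finsupp.mapDomain_apply hinj ((hM.fam y).mapRange (ρ g) (map_zero _)) u
  rw [this, Finsupp.mapRange_apply]

theorem IsGraded.finite_supp (hM : IsGraded ρ M) (y : Y) : {u | hM.comp u y ≠ 0}.Finite := by
  refine (hM.fam y).support.finite_toSet.subset ?_
  intro u hu
  exact Finset.mem_coe.2 (Finsupp.mem_support_iff.2 hu)

theorem IsGraded.comp_comp (hM : IsGraded ρ M) [DecidableEq Φ] (u v : Φ) (y : Y) :
    hM.comp u (hM.comp v y) = if v = u then hM.comp v y else 0 :=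
  hM.comp_of_mem (hM.comp_mem v y) u

end

end Pool.Agent.Helper59.CG
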