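import Mathlib
import Pool.Agent.Helper59.CG.Comp

namespace Pool.Agent.Helper59.CG

section

variable {B : Type*} [CommRing B] {Γ : Type*} [Group Γ] {Y : Type*} [AddCommGroup Y] [Module B Y]

/-- A submodule stable under the group. -/
def IsStable (ρ : Γ →* Module.End B Y) (U : Submodule B Y) : Prop := ∀ g, ∀ x ∈ U, ρ g x ∈ U

/-- The span of the `j x - x`, `j ∈ J`, `x ∈ U`. -/
def AugS (ρ : Γ →* Module.End B Y) (J : Subgroup Γ) (U : Submodule B Y) : Submodule B Y :=
  Submodule.span B {y | ∃ j ∈ J, ∃ x ∈ U, y = ρ j x - x}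

theorem AugS_mono {ρ : Γ →* Module.End B Y} {J : Subgroup Γ} {U W : Submodule B Y} (h : U ≤ W) :
    AugS ρ J U ≤ AugS ρ J W :=
  Submodule.span_mono fun _ ⟨j, hj, x, hx, e⟩ => ⟨j, hj, x, h hx, e⟩

theorem mem_AugS {ρ : Γ →* Module.End B Y} {J : Subgroup Γ} {U : Submodule B Y} {j : Γ}
    (hj : j ∈ J) {x : Y} (hx : x ∈ U) : ρ j x - x ∈ AugS ρ J U :=
  Submodule.subset_span ⟨j, hj, x, hx, rfl⟩

theorem AugS_le {ρ : Γ →* Module.End B Y} {J : Subgroup Γ} {U : Submodule B Y}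
    (hU : ∀ j ∈ J, ∀ x ∈ U, ρ j x ∈ U) : AugS ρ J U ≤ U :=
  Submodule.span_le.2 fun _ ⟨j, hj, x, hx, e⟩ => by
    rw [e]; exact U.sub_mem (hU j hj x hx) hx

theorem AugS_stable {ρ : Γ →* Module.End B Y} {J : Subgroup Γ} [hJ : J.Normal]
    {U : Submodule B Y} (hU : IsStable ρ U) : IsStable ρ (AugS ρ J U) := by
  intro g x hx
  have : AugS ρ J U ≤ (AugS ρ J U).comap (ρ g) := by
    refine Submodule.span_le.2 ?_
    rintro _ ⟨j, hj, x, hx, rfl⟩
    show ρ g (ρ j x - x) ∈ AugS ρ J U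
    have e : ρ g (ρ j x - x) = ρ (g * j * g⁻¹) (ρ g x) - ρ g x := by
      rw [map_sub, ← Module.End.mul_apply, ← map_mul, ← Module.End.mul_apply, ← map_mul,
        inv_mul_cancel_right]
    rw [e]
    exact mem_AugS (hJ.conj_mem j hj g) (hU g x hx)
  exact this hx

/-- The submodule of elements of the form `∑ (b_i - 1) z_i` with `z_i ∈ U`. -/
theorem aug_form {ρ : Γ →* Module.End B Y} {J : Subgroup Γ} {ι : Type*}
    (b : FreeGroupBasis ι J) {U : Submodule B Y} (hU : ∀ j ∈ J, ∀ x ∈ U, ρ j x ∈ U)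
    {y : Y} (hy : y ∈ AugS ρ J U) :
    ∃ z : ι →₀ Y, (∀ i, z i ∈ U) ∧ y = ∑ i ∈ z.support, (ρ (b i : Γ) (z i) - z i) := by
  classical
  -- the linear map
  let L : (ι →₀ Y) →ₗ[B] Y := Finsupp.lsum B (fun i => ρ (b i : Γ) - LinearMap.id)
  have hL : ∀ z, L z = ∑ i ∈ z.support, (ρ (b i : Γ) (z i) - z i) := by
    intro z
    rw [Finsupp.lsum_apply, Finsupp.sum]
    rfl
  let P : Submodule B (ι →₀ Y) :=
    { carrier := {z | ∀ i, z i ∈ U}
      zero_mem' := fun i => U.zero_mem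
      add_mem' := fun ha hb i => U.add_mem (ha i) (hb i)
      smul_mem' := fun c _ ha i => U.smul_mem c (ha i) }
  have hPL : ∀ i x, x ∈ U → ρ (b i : Γ) x - x ∈ P.map L := by
    intro i x hx
    refine ⟨Finsupp.single i x, ?_, ?_⟩
    · intro k
      rw [Finsupp.single_apply]
      split_ifs
      · exact hx
      · exact U.zero_mem
    · show L _ = _
      rw [Finsupp.lsum_single]
      rfl
  have key : ∀ w : FreeGroup ι, ∀ x ∈ U, ρ ((b.repr.symm w : J) : Γ) x - x ∈ P.map L := by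
    intro w
    induction w using FreeGroup.induction_on with
    | C1 =>
      intro x _
      rw [map_one]
      simp
    | of i => intro x hx; exact hPL i x hx
    | inv_of i _ =>
      intro x hx
      have h1 : ((b.repr.symm (FreeGroup.of i)⁻¹ : J) : Γ) = (b i : Γ)⁻¹ := by
        rw [map_inv]; rfl
      rw [h1]
      have h2 : ρ (b i : Γ)⁻¹ x ∈ U := hU _ (J.inv_mem (b i).2) x hx
      have h3 := hPL i _ h2
      rw [← Module.End.mul_apply, ← map_mul, mul_inv_cancel, map_one, Module.End.one_apply] at h3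
      have h4 := (P.map L).neg_mem h3
      rwa [neg_sub] at h4
    | mul v w hv hw =>
      intro x hx
      rw [map_mul, Subgroup.coe_mul, map_mul, Module.End.mul_apply]
      have h1 := hw x hx
      have h2 := hv _ (hU _ (b.repr.symm w).2 x hx)
      have h3 := (P.map L).add_mem h2 h1
      rwa [sub_add_sub_cancel] at h3
  have hle : AugS ρ J U ≤ P.map L := by
    refine Submodule.span_le.2 ?_
    rintro _ ⟨j, hj, x, hx, rfl⟩
    have := key (b.repr ⟨j, hj⟩) x hx
    rwa [MulEquiv.symm_apply_apply] at this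
  obtain ⟨z, hz, e⟩ := hle hy
  exact ⟨z, hz, by rw [← e, hL]⟩

/-- `H_1(J; W/U) = 0`, elementwise. -/
def RelTor (ρ : Γ →* Module.End B Y) {J : Subgroup Γ} {ι : Type*} (b : FreeGroupBasis ι J)
    (U W : Submodule B Y) : Prop :=
  ∀ z : ι →₀ Y, (∀ i, z i ∈ W) → (∑ i ∈ z.support, (ρ (b i : Γ) (z i) - z i)) ∈ U →
    ∀ i, z i ∈ U

theorem RelTor.inj {ρ : Γ →* Module.End B Y} {J : Subgroup Γ} {ι : Type*}
    {b : FreeGroupBasis ι J} {U W : Submodule B Y} (h : RelTor ρ b U W)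
    (hW : ∀ j ∈ J, ∀ x ∈ W, ρ j x ∈ W) {y : Y} (hy : y ∈ U) (hy' : y ∈ AugS ρ J W) :
    y ∈ AugS ρ J U := by
  obtain ⟨z, hz, e⟩ := aug_form b hW hy'
  have h1 := h z hz (by rw [← e]; exact hy)
  rw [e]
  exact Submodule.sum_mem _ fun i _ => mem_AugS (b i).2 (h1 i)

/-- A chain of submodules with `H_1(J; gr) = 0` and union everything. -/
theorem RelTor.chain {ρ : Γ →* Module.End B Y} {J : Subgroup Γ} {ι : Type*}
    {b : FreeGroupBasis ι J} {F : ℕ → Submodule B Y} (hF : Monotone F)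
    (hun : ∀ y, ∃ n, y ∈ F n) (h : ∀ n, RelTor ρ b (F n) (F (n + 1))) (n : ℕ) :
    RelTor ρ b (F n) ⊤ := by
  classical
  intro z _ hz
  -- all z i in some F m
  have hm : ∃ m, n ≤ m ∧ ∀ i, z i ∈ F m := by
    choose m hm using hun
    refine ⟨n + z.support.sup (fun i => m (z i)), Nat.le_add_right _ _, fun i => ?_⟩
    by_cases hi : i ∈ z.support
    · exact hF (le_trans (Finset.le_sup (f := fun i => m (z i)) hi) (Nat.le_add_left _ _))
        (hm (z i))
    · rw [Finsupp.notMem_support_iff.1 hi]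
      exact Submodule.zero_mem _
  obtain ⟨m, hnm, hm⟩ := hm
  -- downward induction
  obtain ⟨k, rfl⟩ := Nat.exists_eq_add_of_le hnm
  clear hnm
  induction k with
  | zero => exact hm
  | succ k ih =>
    apply ih
    exact h (n + k) z hm (hF (Nat.le_add_right _ _) hz)

end

end Pool.Agent.Helper59.CG
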