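import Mathlib
import Pool.Agent.Helper59.CG.Coinv

namespace Pool.Agent.Helper59.CG

open SimpleGraph

universe u

/-- A group acting on a bipartite tree without isolated vertices. -/
structure TreeAct (Γ : Type u) {V : Type u} [Group Γ] [MulAction Γ V] (T : SimpleGraph V)
    (col : V → Bool) : Prop where
  tree : T.IsTree
  col_adj : ∀ ⦃p c⦄, T.Adj p c → col p ≠ col c
  adj_smul : ∀ (g : Γ) ⦃p c⦄, T.Adj p c → T.Adj (g • p) (g • c)
  col_smul : ∀ (g : Γ) c, col (g • c) = col c
  nbr : ∀ c, ∃ b, T.Adj b c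

section

variable {Γ : Type u} {V : Type u} [Group Γ] [MulAction Γ V] {T : SimpleGraph V}
  {col : V → Bool}

theorem TreeAct.adj_smul_iff (hT : TreeAct Γ T col) (g : Γ) {p c : V} :
    T.Adj (g • p) (g • c) ↔ T.Adj p c := by
  refine ⟨fun h => ?_, fun h => hT.adj_smul g h⟩
  have := hT.adj_smul g⁻¹ h
  rwa [inv_smul_smul, inv_smul_smul] at this

theorem TreeAct.dist_smul_le (hT : TreeAct Γ T col) (g : Γ) (a c : V) :
    T.dist (g • a) (g • c) ≤ T.dist a c := by
  obtain ⟨w, hw⟩ := hT.tree.connected.exists_walk_length_eq_dist a c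
  let φ : T →g T := ⟨fun v => g • v, fun h => hT.adj_smul g h⟩
  rw [← hw, ← Walk.length_map φ w]
  exact dist_le (w.map φ)

theorem TreeAct.dist_smul (hT : TreeAct Γ T col) (g : Γ) (a c : V) :
    T.dist (g • a) (g • c) = T.dist a c := by
  apply le_antisymm (hT.dist_smul_le g a c)
  have := hT.dist_smul_le g⁻¹ (g • a) (g • c)
  rwa [inv_smul_smul, inv_smul_smul] at this

theorem TreeAct.typ_smul (hT : TreeAct Γ T col) (g : Γ) {r : ℕ} {c : V} :
    Typ col r (g • c) ↔ Typ col r c := by
  unfold Typ; rw [hT.col_smul]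

end

/-- Component maps of a submodule `X` of a graded module `Y`. -/
structure Kap {Γ : Type u} {V : Type u} [Group Γ] [MulAction Γ V] (col : V → Bool)
    {B : Type u} [CommRing B] {X Z : Type u} [AddCommGroup X] [Module B X]
    [AddCommGroup Z] [Module B Z] (σ : Γ →* Module.End B X) (ρ : Γ →* Module.End B Z)
    (κ : V → X →ₗ[B] Z) : Prop where
  odd : ∀ u, col u = false → κ u = 0
  fin : ∀ x, {u | κ u x ≠ 0}.Finite
  zero : ∀ x, (∀ u, κ u x = 0) → x = 0
  equiv : ∀ g u x, κ (g • u) (σ g x) = ρ g (κ u x)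

section

variable {Γ : Type u} {V : Type u} [Group Γ] [MulAction Γ V] {T : SimpleGraph V}
  {col : V → Bool} {B : Type u} [CommRing B] {X Z : Type u} [AddCommGroup X] [Module B X]
  [AddCommGroup Z] [Module B Z] {σ : Γ →* Module.End B X} {ρ : Γ →* Module.End B Z}
  {κ : V → X →ₗ[B] Z}

variable (T col) in
/-- The filtration by the radius of supports. -/
def Fil (κ : V → X →ₗ[B] Z) (r : ℕ) : Submodule B X :=
  ⨆ c, ⨆ (_ : Typ col r c), Xc T κ c r

theorem Xc_le_Fil {r : ℕ} {c : V} (h : Typ col r c) : Xc T κ c r ≤ Fil T col κ r :=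
  le_iSup_of_le c (le_iSup_of_le h le_rfl)

theorem Fil_mono (hT : TreeAct Γ T col) : Monotone (Fil T col κ) := by
  refine monotone_nat_of_le_succ fun r => ?_
  refine iSup_le fun c => iSup_le fun hc => ?_
  obtain ⟨b, hb⟩ := hT.nbr c
  exact (Xc_le_succ hT.tree.connected hb.symm).trans
    (Xc_le_Fil ((typ_adj hT.col_adj hb.symm).2 hc))

theorem Fil_union (hT : TreeAct Γ T col) (hκ : Kap col σ ρ κ) (x : X) :
    ∃ r, x ∈ Fil T col κ r := by
  by_cases hx : x = 0
  · exact ⟨0, by rw [hx]; exact Submodule.zero_mem _⟩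
  obtain ⟨c, hc⟩ : ∃ c, κ c x ≠ 0 := by
    by_contra h
    push Not at h
    exact hx (hκ.zero x h)
  have hcol : col c = true := by
    by_contra h
    exact hc (by rw [hκ.odd c (by simpa using h)]; rfl)
  set N := (hκ.fin x).toFinset.sup (fun u => T.dist c u) with hN
  have h1 : ∀ r, N ≤ r → x ∈ Xc T κ c r := by
    intro r hr u hu
    exact le_trans (Finset.le_sup (f := fun u => T.dist c u) ((hκ.fin x).mem_toFinset.2 hu)) hr
  refine ⟨2 * N, Xc_le_Fil (c := c) ?_ (h1 _ (by omega))⟩
  unfold Typ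
  rw [hcol]
  simp

theorem mem_Fil {r : ℕ} {x : X} : x ∈ Fil T col κ r ↔
    ∃ f : V →₀ X, (∀ c, f c ∈ Xc T κ c r) ∧ (∀ c, f c ≠ 0 → Typ col r c) ∧ tot V X f = x := by
  classical
  constructor
  · intro hx
    let S : Submodule B X :=
      { carrier := {x | ∃ f : V →₀ X, (∀ c, f c ∈ Xc T κ c r) ∧
          (∀ c, f c ≠ 0 → Typ col r c) ∧ tot V X f = x}
        zero_mem' := ⟨0, fun c => Submodule.zero_mem _, fun c h => absurd rfl h, map_zero _⟩
        add_mem' := by
          rintro a b ⟨f, h1, h2, h3⟩ ⟨g, k1, k2, k3⟩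
          refine ⟨f + g, fun c => Submodule.add_mem _ (h1 c) (k1 c), fun c hc => ?_, ?_⟩
          · by_cases hf : f c = 0
            · refine k2 c fun hg => hc ?_
              rw [Finsupp.add_apply, hf, hg, add_zero]
            · exact h2 c hf
          · rw [map_add, h3, k3]
        smul_mem' := by
          rintro a x ⟨f, h1, h2, h3⟩
          refine ⟨a • f, fun c => Submodule.smul_mem _ _ (h1 c), fun c hc => ?_, ?_⟩
          · refine h2 c fun hf => hc ?_
            rw [Finsupp.smul_apply, hf, smul_zero]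
          · rw [← h3]
            exact total_smul (Φ := V) a f }
    have hle : Fil T col κ r ≤ S := by
      refine iSup_le fun c => iSup_le fun hc x hx => ?_
      refine ⟨Finsupp.single c x, fun d => ?_, fun d hd => ?_, total_single (Φ := V) c x⟩
      · rw [Finsupp.single_apply]
        split_ifs with h
        · rw [← h]; exact hx
        · exact Submodule.zero_mem _
      · rw [Finsupp.single_apply] at hd
        split_ifs at hd with h
        · rw [← h]; exact hc
        · exact absurd rfl hd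
    exact hle hx
  · rintro ⟨f, h1, h2, h3⟩
    rw [← h3, tot_eq]
    refine Submodule.sum_mem _ fun c hc => ?_
    exact Xc_le_Fil (h2 c (Finsupp.mem_support_iff.1 hc)) (h1 c)

/-- Consequence of the key lemma: `gr_{r+1}` is the direct sum of its pieces. -/
theorem fil_key (hT : TreeAct Γ T col) (hκ : Kap col σ ρ κ) {r : ℕ} {x : V →₀ X}
    (hx : ∀ c, x c ∈ Xc T κ c (r + 1)) (hxt : ∀ c, x c ≠ 0 → Typ col (r + 1) c)
    (h : tot V X x ∈ Fil T col κ r) (c : V) : x c ∈ Xp T κ c r := by
  classical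
  obtain ⟨y, h1, h2, h3⟩ := mem_Fil.1 h
  refine key_lemma hT.tree hT.col_adj κ hκ.odd r c
    ((x.support ∪ y.support).sup (fun u => T.dist c u)) x y hx hxt h1 h2 ?_ ?_ h3.symm c
  · intro d hd
    exact Finset.le_sup (f := fun u => T.dist c u)
      (Finset.mem_union_left _ (Finsupp.mem_support_iff.2 hd))
  · intro d hd
    exact Finset.le_sup (f := fun u => T.dist c u)
      (Finset.mem_union_right _ (Finsupp.mem_support_iff.2 hd))

theorem Xc_smul (hT : TreeAct Γ T col) (hκ : Kap col σ ρ κ) (g : Γ) {c : V} {r : ℕ} {x : X}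
    (hx : x ∈ Xc T κ c r) : σ g x ∈ Xc T κ (g • c) r := by
  intro u hu
  have e : κ u (σ g x) = ρ g (κ (g⁻¹ • u) x) := by
    have := hκ.equiv g (g⁻¹ • u) x
    rwa [smul_inv_smul] at this
  have h1 : κ (g⁻¹ • u) x ≠ 0 := fun h => hu (by rw [e, h, map_zero])
  have h2 := hx _ h1
  have h3 := hT.dist_smul g c (g⁻¹ • u)
  rw [smul_inv_smul] at h3
  omega

theorem Xp_smul (hT : TreeAct Γ T col) (hκ : Kap col σ ρ κ) (g : Γ) {c : V} {r : ℕ} {x : X}
    (hx : x ∈ Xp T κ c r) : σ g x ∈ Xp T κ (g • c) r := by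
  have : Xp T κ c r ≤ (Xp T κ (g • c) r).comap (σ g) := by
    refine iSup_le fun b => iSup_le fun hb x hx => ?_
    exact Xc_le_Xp (hT.adj_smul g hb) (Xc_smul hT hκ g hx)
  exact this hx

theorem Fil_stable (hT : TreeAct Γ T col) (hκ : Kap col σ ρ κ) (r : ℕ) :
    IsStable σ (Fil T col κ r) := by
  intro g x hx
  have : Fil T col κ r ≤ (Fil T col κ r).comap (σ g) := by
    refine iSup_le fun c => iSup_le fun hc x hx => ?_
    exact Xc_le_Fil ((hT.typ_smul g).2 hc) (Xc_smul hT hκ g hx)
  exact this hx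

theorem Xp_le_Fil (hT : TreeAct Γ T col) {c : V} {r : ℕ} (hc : Typ col (r + 1) c) :
    Xp T κ c r ≤ Fil T col κ r :=
  iSup_le fun _ => iSup_le fun hb => Xc_le_Fil ((typ_adj hT.col_adj hb).1 hc)

/-- By parity, an element supported in the ball of radius `r` about a centre of type `r + 1`
lies in the smaller part. -/
theorem Xc_le_Xp_of_typ (hT : TreeAct Γ T col) (hκ : Kap col σ ρ κ) {c : V} {r : ℕ}
    (hc : Typ col (r + 1) c) : Xc T κ c r ≤ Xp T κ c r := by
  intro x hx
  obtain ⟨b, hb⟩ := hT.nbr c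
  refine Xc_le_Xp hb fun u hu => ?_
  have h1 := hx u hu
  have hcol : col u = true := by
    by_contra h
    exact hu (by rw [hκ.odd u (by simpa using h)]; rfl)
  have h2 : T.dist c u ≠ r := by
    intro h3
    have h4 := even_dist_iff hT.tree.connected col hT.col_adj c u
    rw [h3, hcol] at h4
    unfold Typ at hc
    rw [Nat.even_add_one] at hc
    tauto
  have h3 : T.dist b u ≤ T.dist b c + T.dist c u := hT.tree.connected.dist_triangle
  have h4 : T.dist b c = 1 := dist_eq_one_iff_adj.2 hb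
  omega

end

end Pool.Agent.Helper59.CG
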