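import Mathlib
import Pool.Agent.Helper59.CG.Fil

namespace Pool.Agent.Helper59.CG

open SimpleGraph

universe u

theorem dcomm {V : Type u} (T : SimpleGraph V) (a b : V) : T.dist a b = T.dist b a :=
  T.dist_comm

theorem parent_unique {V : Type u} {T : SimpleGraph V} (hT : T.IsTree) {p q c v : V}
    (hp : T.Adj p c) (hq : T.Adj q c) (h1 : T.dist p v + 1 = T.dist c v)
    (h2 : T.dist q v + 1 = T.dist c v) : p = q := by
  rcases hT.dist_eq_dist_add_one_of_adj q hp with h | h
  · -- dist q p = dist q c + 1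
    have h3 : T.dist q c = 1 := dist_eq_one_iff_adj.2 hq
    have e := side_add hT (p := p) (c := c) (u := q) (w := v) hp
      (by rw [T.dist_comm, h, T.dist_comm]) (by omega)
    rw [dcomm T v q, dcomm T v p, dcomm T c q, h3] at e
    omega
  · have h3 : T.dist q c = 1 := dist_eq_one_iff_adj.2 hq
    have h4 : T.dist q p = 0 := by omega
    exact (hT.connected.dist_eq_zero_iff.1 h4).symm

/-- The neighbour of `c` towards `u`. -/
theorem exists_dir {V : Type u} {T : SimpleGraph V} (hT : T.IsTree) (c v : V) (h : v ≠ c) :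
    ∃ b, T.Adj b c ∧ T.dist b v + 1 = T.dist c v := by
  obtain ⟨p, hp, e⟩ := exists_parent hT v c (Ne.symm h)
  refine ⟨p, hp, ?_⟩
  rw [dcomm T c v, e, dcomm T v p]

section

variable {Γ : Type u} {V : Type u} [Group Γ] [MulAction Γ V] {T : SimpleGraph V}
  {col : V → Bool} {B : Type u} [CommRing B] {X Y : Type u} [AddCommGroup X] [Module B X]
  [AddCommGroup Y] [Module B Y] {σ : Γ →* Module.End B X} {ρ : Γ →* Module.End B Y}
  {M : V → Submodule B Y}

theorem kap_self (hM : IsGraded ρ M) (hodd : ∀ c, col c = false → M c = ⊥) :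
    Kap col ρ ρ hM.comp where
  odd u hu := by
    ext y
    have := hM.comp_mem u y
    rw [hodd u hu, Submodule.mem_bot] at this
    rw [this]; rfl
  fin := hM.finite_supp
  zero := hM.eq_zero
  equiv := hM.comp_smul

/-- The component maps of `X` inside `Y`. -/
noncomputable def kx (hM : IsGraded ρ M) (f : X →ₗ[B] Y) (u : V) : X →ₗ[B] Y :=
  (hM.comp u).comp f

theorem kap_sub (hM : IsGraded ρ M) (hodd : ∀ c, col c = false → M c = ⊥) (f : X →ₗ[B] Y)
    (hf : Function.Injective f) (hfe : ∀ g x, f (σ g x) = ρ g (f x)) :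
    Kap col σ ρ (kx hM f) where
  odd u hu := by
    have := (kap_self (col := col) hM hodd).odd u hu
    rw [kx, this]; rfl
  fin x := hM.finite_supp (f x)
  zero x hx := by
    have : f x = 0 := hM.eq_zero (f x) hx
    rw [← map_zero f] at this
    exact hf this
  equiv g u x := by
    show hM.comp (g • u) (f (σ g x)) = ρ g (hM.comp u (f x))
    rw [hfe, hM.comp_smul]

variable (T) in
/-- Elements of `Y` all of whose components lie in direction `b` from `c`. -/
def Ydir (hM : IsGraded ρ M) (c b : V) : Submodule B Y where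
  carrier := {y | ∀ u, hM.comp u y ≠ 0 → T.dist b u + 1 = T.dist c u}
  zero_mem' := fun u h => absurd (map_zero _) h
  add_mem' := by
    intro a b ha' hb' u h
    by_cases h1 : hM.comp u a = 0
    · refine hb' u (fun h2 => h ?_)
      rw [map_add, h1, h2, add_zero]
    · exact ha' u h1
  smul_mem' := by
    intro c x hx' u h
    refine hx' u (fun h2 => h ?_)
    rw [map_smul, h2, smul_zero]

variable (T) in
/-- The submodule of `Y` that is divided out at the centre `c`. -/
noncomputable def Uc (hM : IsGraded ρ M) (f : X →ₗ[B] Y) (c : V) (r : ℕ) : Submodule B Y :=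
  (Xp T (kx hM f) c r).map f ⊔ Xc T hM.comp c r

theorem mem_Xp {Z : Type u} [AddCommGroup Z] [Module B Z] {κ : V → X →ₗ[B] Z} {c : V} {r : ℕ}
    {x : X} : x ∈ Xp T κ c r ↔
    ∃ f : V →₀ X, (∀ b, f b ∈ Xc T κ b r) ∧ (∀ b, f b ≠ 0 → T.Adj b c) ∧ tot V X f = x := by
  classical
  constructor
  · intro hx
    let S : Submodule B X :=
      { carrier := {x | ∃ f : V →₀ X, (∀ b, f b ∈ Xc T κ b r) ∧
          (∀ b, f b ≠ 0 → T.Adj b c) ∧ tot V X f = x}
        zero_mem' := ⟨0, fun c => Submodule.zero_mem _, fun c h => absurd rfl h, map_zero _⟩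
        add_mem' := by
          rintro a b ⟨f, h1, h2, h3⟩ ⟨g, k1, k2, k3⟩
          refine ⟨f + g, fun c => Submodule.add_mem _ (h1 c) (k1 c), fun c hc => ?_, ?_⟩
          · by_cases hf : f c = 0
            · refine k2 c fun hg => hc ?_
              rw [Finsupp.add_apply, hf, hg, add_zero]
            · exact h2 c hf
          · rw [map_add, h3, k3]
        smul_mem' := by
          rintro a x ⟨f, h1, h2, h3⟩
          refine ⟨a • f, fun c => Submodule.smul_mem _ _ (h1 c), fun c hc => ?_, ?_⟩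
          · refine h2 c fun hf => hc ?_
            rw [Finsupp.smul_apply, hf, smul_zero]
          · rw [← h3]
            exact total_smul (Φ := V) a f }
    have hle : Xp T κ c r ≤ S := by
      refine iSup_le fun b => iSup_le fun hc x hx => ?_
      refine ⟨Finsupp.single b x, fun d => ?_, fun d hd => ?_, total_single (Φ := V) b x⟩
      · rw [Finsupp.single_apply]
        split_ifs with h
        · rw [← h]; exact hx
        · exact Submodule.zero_mem _
      · rw [Finsupp.single_apply] at hd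
        split_ifs at hd with h
        · rw [← h]; exact hc
        · exact absurd rfl hd
    exact hle hx
  · rintro ⟨f, h1, h2, h3⟩
    rw [← h3, tot_eq]
    refine Submodule.sum_mem _ fun c hc => ?_
    exact Xc_le_Xp (h2 c (Finsupp.mem_support_iff.1 hc)) (h1 c)

/-- (I) Independence of the directions modulo `Uc`. -/
theorem dir_indep (hT : TreeAct Γ T col) (hM : IsGraded ρ M) (f : X →ₗ[B] Y) {c : V} {r : ℕ}
    (w : V →₀ Y) (hw : ∀ b, w b ∈ Ydir T hM c b) (hwa : ∀ b, w b ≠ 0 → T.Adj b c)
    (h : tot V Y w ∈ Uc T hM f c r) (b : V) : w b ∈ Uc T hM f c r := by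
  classical
  obtain ⟨_, ⟨x', hx', rfl⟩, y, hy, e⟩ := Submodule.mem_sup.1 h
  obtain ⟨g, hg, hga, rfl⟩ := mem_Xp.1 hx'
  have hgb : f (g b) ∈ (Xp T (kx hM f) c r).map f := by
    by_cases h0 : g b = 0
    · rw [h0, map_zero]; exact Submodule.zero_mem _
    · exact ⟨g b, Xc_le_Xp (hga b h0) (hg b), rfl⟩
  by_cases hadj : T.Adj b c
  swap
  · have : w b = 0 := by
      by_contra h0
      exact hadj (hwa b h0)
    rw [this]; exact Submodule.zero_mem _
  have key : w b - f (g b) ∈ Xc T hM.comp c r := by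
    intro u hu
    by_contra hlt
    push Not at hlt
    have huc : u ≠ c := by
      rintro rfl
      rw [T.dist_self] at hlt
      omega
    obtain ⟨b0, hb0, hb0'⟩ := exists_dir hT.tree c u huc
    have hy0 : hM.comp u y = 0 := by
      by_contra h0
      have := hy u h0
      omega
    have hother : ∀ b', b' ≠ b0 → T.Adj b' c → T.dist b' u = T.dist c u + 1 := by
      intro b' hb' ha
      rcases hT.tree.dist_eq_dist_add_one_of_adj u ha with h1 | h1
      · rw [dcomm T b' u, h1, dcomm T u c]
      · exfalso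
        apply hb'
        refine parent_unique hT.tree ha hb0 (v := u) ?_ hb0'
        rw [dcomm T b' u, dcomm T c u, h1]
    have hwz : ∀ b', b' ≠ b0 → hM.comp u (w b') = 0 := by
      intro b' hb'
      by_contra h0
      have h1 := hw b' u h0
      have ha : T.Adj b' c := hwa b' (fun h2 => h0 (by rw [h2, map_zero]))
      have := hother b' hb' ha
      omega
    have hgz : ∀ b', b' ≠ b0 → hM.comp u (f (g b')) = 0 := by
      intro b' hb'
      by_contra h0
      have h1 := hg b' u h0
      have ha : T.Adj b' c := hga b' (fun h2 => h0 (by rw [h2, map_zero, map_zero]))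
      have := hother b' hb' ha
      omega
    by_cases hbb : b = b0
    · subst hbb
      apply hu
      have e1 := congrArg (hM.comp u) e
      rw [map_add, hy0, add_zero, tot_eq, tot_eq, map_sum, map_sum, map_sum] at e1
      have e2 : ∑ c ∈ g.support, hM.comp u (f (g c)) = hM.comp u (f (g b)) := by
        refine Finset.sum_eq_single b (fun b' _ h1 => hgz b' h1) (fun h1 => ?_)
        rw [Finsupp.notMem_support_iff.1 h1, map_zero, map_zero]
      have e3 : ∑ c ∈ w.support, hM.comp u (w c) = hM.comp u (w b) := by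
        refine Finset.sum_eq_single b (fun b' _ h1 => hwz b' h1) (fun h1 => ?_)
        rw [Finsupp.notMem_support_iff.1 h1, map_zero]
      rw [e2, e3] at e1
      rw [map_sub, e1, sub_self]
    · apply hu
      rw [map_sub, hwz b hbb, hgz b hbb, sub_self]
  have : w b = f (g b) + (w b - f (g b)) := by abel
  rw [this]
  exact Submodule.add_mem_sup hgb key

/-- (II) The directions and the centre span `Y`. -/
theorem dir_span (hT : TreeAct Γ T col) (hM : IsGraded ρ M) (c : V) (y : Y) :
    ∃ w : V →₀ Y, (∀ b, w b ∈ Ydir T hM c b) ∧ (∀ b, w b ≠ 0 → T.Adj b c) ∧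
      y = tot V Y w + hM.comp c y := by
  classical
  have hdir : ∀ v, ∃ b, v ≠ c → T.Adj b c ∧ T.dist b v + 1 = T.dist c v := by
    intro v
    by_cases h : v = c
    · exact ⟨v, fun h' => absurd h h'⟩
    · obtain ⟨b, hb⟩ := exists_dir hT.tree c v h
      exact ⟨b, fun _ => hb⟩
  choose dir hdir using hdir
  set g := (hM.fam y).filter (fun v => v ≠ c) with hg
  have hgc : ∀ v, g v ≠ 0 → v ≠ c ∧ g v = hM.comp v y := by
    intro v hv
    rw [hg, Finsupp.filter_apply] at hv ⊢
    split_ifs at hv ⊢ with h1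
    · exact ⟨h1, rfl⟩
    · exact absurd rfl hv
  refine ⟨g.mapDomain dir, fun b => ?_, fun b hb => ?_, ?_⟩
  · refine mapDomain_mem _ _ _ _ fun v hv hvb => ?_
    obtain ⟨h1, h2⟩ := hgc v hv
    rw [h2]
    intro u hu
    rw [hM.comp_comp] at hu
    split_ifs at hu with h3
    · rw [← h3, ← hvb]; exact (hdir v h1).2
    · exact absurd rfl hu
  · obtain ⟨v, hv, hvb⟩ := mapDomain_ne_zero _ _ _ hb
    rw [← hvb]
    exact (hdir v (hgc v hv).1).1
  · rw [tot_mapDomain]
    have e1 : hM.fam y = g + (hM.fam y).filter (fun v => ¬ (v ≠ c)) :=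
      (Finsupp.filter_add_filter_not _ _).symm
    have e2 : (hM.fam y).filter (fun v => ¬ (v ≠ c)) = Finsupp.single c (hM.comp c y) := by
      ext v
      rw [Finsupp.filter_apply, Finsupp.single_apply]
      by_cases h1 : v = c
      · subst h1; simp [IsGraded.comp_apply]
      · simp [h1, Ne.symm h1]
    have e3 := hM.total_fam y
    rw [e1, e2, map_add, total_single] at e3
    exact e3.symm

theorem Ydir_smul (hT : TreeAct Γ T col) (hM : IsGraded ρ M) (g : Γ) {c b : V} {y : Y}
    (hy : y ∈ Ydir T hM c b) : ρ g y ∈ Ydir T hM (g • c) (g • b) := by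
  intro u hu
  have e : hM.comp u (ρ g y) = ρ g (hM.comp (g⁻¹ • u) y) := by
    have := hM.comp_smul g (g⁻¹ • u) y
    rwa [smul_inv_smul] at this
  have h1 : hM.comp (g⁻¹ • u) y ≠ 0 := fun h => hu (by rw [e, h, map_zero])
  have h2 := hy _ h1
  have h3 := hT.dist_smul g c (g⁻¹ • u)
  have h4 := hT.dist_smul g b (g⁻¹ • u)
  rw [smul_inv_smul] at h3 h4
  omega

theorem Uc_smul (hT : TreeAct Γ T col) (hM : IsGraded ρ M)
    (hodd : ∀ c, col c = false → M c = ⊥) (f : X →ₗ[B] Y)
    (hf : Function.Injective f) (hfe : ∀ g x, f (σ g x) = ρ g (f x)) (g : Γ) {c : V} {r : ℕ}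
    {y : Y} (hy : y ∈ Uc T hM f c r) : ρ g y ∈ Uc T hM f (g • c) r := by
  obtain ⟨_, ⟨x', hx', rfl⟩, y2, hy2, rfl⟩ := Submodule.mem_sup.1 hy
  rw [map_add, ← hfe]
  refine Submodule.add_mem_sup ⟨_, Xp_smul hT (kap_sub hM hodd f hf hfe) g hx', rfl⟩ ?_
  exact Xc_smul hT (kap_self hM hodd) g hy2

/-- (IV) The pieces of `gr_{r+1}` embed in `Y / Uc`. -/
theorem mem_Xp_of_Uc (hT : TreeAct Γ T col) (hM : IsGraded ρ M)
    (hodd : ∀ c, col c = false → M c = ⊥) (f : X →ₗ[B] Y)
    (hf : Function.Injective f) (hfe : ∀ g x, f (σ g x) = ρ g (f x)) {c : V} {r : ℕ}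
    (hc : Typ col (r + 1) c) {x : X} (h : f x ∈ Uc T hM f c r) :
    x ∈ Xp T (kx hM f) c r := by
  obtain ⟨_, ⟨x', hx', rfl⟩, y, hy, e⟩ := Submodule.mem_sup.1 h
  have h1 : x - x' ∈ Xc T (kx hM f) c r := by
    intro u hu
    apply hy u
    intro h2
    apply hu
    have : f (x - x') = y := by rw [map_sub, ← e, add_sub_cancel_left]
    show hM.comp u (f (x - x')) = 0
    rw [this, h2]
  have h2 := Xc_le_Xp_of_typ hT (kap_sub hM hodd f hf hfe) hc h1
  have := Submodule.add_mem _ h2 hx'
  rwa [sub_add_cancel] at this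

end

end Pool.Agent.Helper59.CG
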