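import Mathlib
import Pool.Agent.Helper59.CG.Dir

namespace Pool.Agent.Helper59.CG

open SimpleGraph

universe u

section

variable {Γ : Type u} {V : Type u} [Group Γ] [MulAction Γ V]
  {B : Type u} [CommRing B] {Y : Type u} [AddCommGroup Y] [Module B Y]

/-- `Γ` acts on families `V →₀ Y`. -/
noncomputable def famRep (V : Type u) [MulAction Γ V] (ρ : Γ →* Module.End B Y) :
    Γ →* Module.End B (V →₀ Y) where
  toFun g := (Finsupp.lmapDomain Y B (fun c : V => g • c)).comp
    (Finsupp.mapRange.linearMap (ρ g))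
  map_one' := by
    apply Finsupp.lhom_ext
    intro c y
    simp
  map_mul' g h := by
    apply Finsupp.lhom_ext
    intro c y
    simp [mul_smul]

theorem famRep_single (ρ : Γ →* Module.End B Y) (g : Γ) (c : V) (y : Y) :
    famRep V ρ g (Finsupp.single c y) = Finsupp.single (g • c) (ρ g y) := by
  simp [famRep]

theorem famRep_apply (ρ : Γ →* Module.End B Y) (g : Γ) (F : V →₀ Y) (c : V) :
    famRep V ρ g F c = ρ g (F (g⁻¹ • c)) := by
  have hinj : Function.Injective (fun c : V => g • c) := MulAction.injective g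
  have := Finsupp.mapDomain_apply hinj (F.mapRange (ρ g) (map_zero _)) (g⁻¹ • c)
  rw [smul_inv_smul, Finsupp.mapRange_apply] at this
  exact this

theorem famRep_total (ρ : Γ →* Module.End B Y) (g : Γ) (F : V →₀ Y) :
    total V Y (famRep V ρ g F) = ρ g (total V Y F) := by
  induction F using Finsupp.induction_linear with
  | zero => simp
  | add a b ha hb => rw [map_add, map_add, map_add, map_add, ha, hb]
  | single c y => rw [famRep_single, total_single, total_single]

/-- The submodule of families with values in `U c`. -/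
def Uhat (U : V → Submodule B Y) : Submodule B (V →₀ Y) where
  carrier := {F | ∀ c, F c ∈ U c}
  zero_mem' := fun c => (U c).zero_mem
  add_mem' := fun ha hb c => (U c).add_mem (ha c) (hb c)
  smul_mem' := fun a _ ha c => (U c).smul_mem a (ha c)

theorem Uhat_stable (ρ : Γ →* Module.End B Y) (U : V → Submodule B Y)
    (hU : ∀ (g : Γ) c y, y ∈ U c → ρ g y ∈ U (g • c)) (g : Γ) :
    Uhat U ≤ (Uhat U).comap (famRep V ρ g) := by
  intro F hF c
  rw [famRep_apply]
  have := hU g (g⁻¹ • c) _ (hF (g⁻¹ • c))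
  rwa [smul_inv_smul] at this

/-- The representation on a quotient by a stable submodule. -/
noncomputable def quotRep (ρ : Γ →* Module.End B Y) (W : Submodule B Y)
    (hW : ∀ g, W ≤ W.comap (ρ g)) : Γ →* Module.End B (Y ⧸ W) where
  toFun g := Submodule.mapQ W W (ρ g) (hW g)
  map_one' := by
    apply Submodule.linearMap_qext
    ext y
    simp
  map_mul' g h := by
    apply Submodule.linearMap_qext
    ext y
    simp

theorem quotRep_mk (ρ : Γ →* Module.End B Y) (W : Submodule B Y)
    (hW : ∀ g, W ≤ W.comap (ρ g)) (g : Γ) (y : Y) :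
    quotRep ρ W hW g (Submodule.Quotient.mk y) = Submodule.Quotient.mk (ρ g y) := rfl

theorem exists_fam_of_iSup {Φ : Type u} {M : Φ → Submodule B Y} (h : ⨆ c, M c = ⊤) (y : Y) :
    ∃ f : Φ →₀ Y, (∀ c, f c ∈ M c) ∧ total Φ Y f = y := by
  have : y ∈ ⨆ c, M c := by rw [h]; trivial
  rw [Submodule.mem_iSup_iff_exists_finsupp] at this
  obtain ⟨f, h1, h2⟩ := this
  exact ⟨f, h1, by rw [total_eq]; exact h2⟩

/-- Flags `(c, b)` with `b` adjacent to `c`. -/
def Flag (T : SimpleGraph V) : Type u := {p : V × V // T.Adj p.2 p.1}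

end

section

variable {Γ : Type u} {V : Type u} [Group Γ] [MulAction Γ V] {T : SimpleGraph V}
  {col : V → Bool} {B : Type u} [CommRing B] {X Y : Type u} [AddCommGroup X] [Module B X]
  [AddCommGroup Y] [Module B Y] {σ : Γ →* Module.End B X} {ρ : Γ →* Module.End B Y}
  {M : V → Submodule B Y}

/-- The action of `Γ` on flags. -/
@[reducible] def flagAct (hT : TreeAct Γ T col) : MulAction Γ (Flag T) where
  smul g p := ⟨(g • p.1.1, g • p.1.2), hT.adj_smul g p.2⟩
  one_smul p := Subtype.ext (Prod.ext (one_smul Γ p.1.1) (one_smul Γ p.1.2))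
  mul_smul g h p := Subtype.ext (Prod.ext (mul_smul g h p.1.1) (mul_smul g h p.1.2))

theorem Xc_center (hM : IsGraded ρ M) (c : V) (r : ℕ) (y : Y) :
    hM.comp c y ∈ Xc T hM.comp c r := by
  classical
  intro u hu
  rw [hM.comp_comp] at hu
  split_ifs at hu with h
  · rw [← h, T.dist_self]; omega
  · exact absurd rfl hu

theorem nfam_graded (hT : TreeAct Γ T col) (hM : IsGraded ρ M)
    (hodd : ∀ c, col c = false → M c = ⊥) (f : X →ₗ[B] Y)
    (hf : Function.Injective f) (hfe : ∀ g x, f (σ g x) = ρ g (f x)) (r : ℕ)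
    (J : Subgroup Γ) :
    letI := flagAct hT
    IsGraded (Γ := J) (Φ := Flag T)
      ((quotRep (famRep V ρ) (Uhat (fun c => Uc T hM f c r))
        (Uhat_stable ρ _ (fun g _ _ h => Uc_smul hT hM hodd f hf hfe g h))).comp J.subtype)
      (fun φ => ((Ydir T hM φ.1.1 φ.1.2).map (Finsupp.lsingle (R := B) φ.1.1)).map
        (Submodule.mkQ (Uhat (fun c => Uc T hM f c r)))) := by
  classical
  let := flagAct hT
  set U : V → Submodule B Y := fun c => Uc T hM f c r with hUdef
  refine ⟨?_, ?_, ?_⟩
  · intro n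
    refine exists_fam_of_iSup ?_ n
    rw [eq_top_iff]
    rintro n -
    obtain ⟨F, rfl⟩ := Submodule.Quotient.mk_surjective _ n
    induction F using Finsupp.induction_linear with
    | zero => exact Submodule.zero_mem _
    | add a b ha hb => exact Submodule.add_mem _ ha hb
    | single c y =>
      obtain ⟨w, h1, h2, h3⟩ := dir_span hT hM c y
      have e1 : Finsupp.single c y = (∑ b ∈ w.support, Finsupp.single c (w b)) +
          Finsupp.single c (hM.comp c y) := by
        conv_lhs => rw [h3]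
        rw [Finsupp.single_add, tot_eq]
        congr 1
        exact map_sum (Finsupp.lsingle (R := B) c) (fun b => w b) w.support
      rw [e1]
      have e2 : (Submodule.Quotient.mk ((∑ b ∈ w.support, Finsupp.single c (w b)) +
          Finsupp.single c (hM.comp c y)) : (V →₀ Y) ⧸ Uhat U) =
          ∑ b ∈ w.support, (Uhat U).mkQ (Finsupp.single c (w b)) := by
        rw [← Submodule.mkQ_apply, map_add, map_sum]
        have : (Uhat U).mkQ (Finsupp.single c (hM.comp c y)) = 0 := by
          rw [Submodule.mkQ_apply, Submodule.Quotient.mk_eq_zero]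
          intro d
          rw [Finsupp.single_apply]
          split_ifs with hd
          · rw [← hd]
            exact Submodule.mem_sup_right (Xc_center hM c r y)
          · exact Submodule.zero_mem _
        rw [this, add_zero]
      rw [e2]
      refine Submodule.sum_mem _ fun b hb => ?_
      have hadj := h2 b (Finsupp.mem_support_iff.1 hb)
      refine Submodule.mem_iSup_of_mem ⟨(c, b), hadj⟩ ?_
      exact ⟨_, ⟨w b, h1 b, rfl⟩, rfl⟩
  · intro G hG h0
    -- choose lifts
    have hlift : ∀ φ : Flag T, ∃ w : Y, w ∈ Ydir T hM φ.1.1 φ.1.2 ∧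
        (Uhat U).mkQ (Finsupp.single φ.1.1 w) = G φ := by
      intro φ
      obtain ⟨_, ⟨w, hw, rfl⟩, e⟩ := hG φ
      exact ⟨w, hw, e⟩
    choose w hw hwe using hlift
    set F : V →₀ Y := ∑ φ ∈ G.support, Finsupp.single φ.1.1 (w φ) with hF
    have hFU : F ∈ Uhat U := by
      rw [← Submodule.Quotient.mk_eq_zero, ← Submodule.mkQ_apply, hF, map_sum]
      rw [total_eq] at h0
      rw [← h0]
      exact Finset.sum_congr rfl fun φ _ => hwe φ
    ext φ
    rw [Finsupp.zero_apply]
    by_contra hφ
    apply hφ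
    set c := φ.1.1 with hc
    -- the family at c
    let wc : V →₀ Y := ∑ ψ ∈ G.support, if ψ.1.1 = c then Finsupp.single ψ.1.2 (w ψ) else 0
    have hwc : ∀ ψ : Flag T, ψ.1.1 = c → ψ ∈ G.support → wc ψ.1.2 = w ψ := by
      intro ψ h1 h2
      show (∑ ψ ∈ G.support, if ψ.1.1 = c then Finsupp.single ψ.1.2 (w ψ) else 0) ψ.1.2 = w ψ
      rw [Finsupp.finsetSum_apply, Finset.sum_eq_single ψ]
      · rw [if_pos h1, Finsupp.single_eq_same]
      · intro ψ' _ hne
        split_ifs with h3
        · rw [Finsupp.single_apply, if_neg]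
          intro h4
          exact hne (Subtype.ext (Prod.ext (h3.trans h1.symm) h4))
        · rfl
      · intro h3; exact absurd h2 h3
    have hwc0 : ∀ b, wc b ≠ 0 → ∃ ψ : Flag T, ψ ∈ G.support ∧ ψ.1.1 = c ∧ ψ.1.2 = b := by
      intro b hb
      by_contra hcon
      push Not at hcon
      apply hb
      show (∑ ψ ∈ G.support, if ψ.1.1 = c then Finsupp.single ψ.1.2 (w ψ) else 0) b = 0
      rw [Finsupp.finsetSum_apply]
      refine Finset.sum_eq_zero fun ψ hψ => ?_
      split_ifs with h3
      · rw [Finsupp.single_apply, if_neg (hcon ψ hψ h3)]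
      · rfl
    have hmain : ∀ b, wc b ∈ U c := by
      refine dir_indep hT hM f wc ?_ ?_ ?_
      · intro b
        by_cases hb : wc b = 0
        · rw [hb]; exact Submodule.zero_mem _
        · obtain ⟨ψ, h1, h2, h3⟩ := hwc0 b hb
          rw [← h3, hwc ψ h2 h1, ← h2]
          exact hw ψ
      · intro b hb
        obtain ⟨ψ, h1, h2, h3⟩ := hwc0 b hb
        rw [← h3, ← h2]
        exact ψ.2
      · have h1 := hFU c
        have h2 : tot V Y wc = F c := by
          show tot V Y (∑ ψ ∈ G.support, if ψ.1.1 = c then Finsupp.single ψ.1.2 (w ψ) else 0)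
            = F c
          rw [map_sum, hF, Finsupp.finsetSum_apply]
          refine Finset.sum_congr rfl fun ψ _ => ?_
          split_ifs with h3
          · rw [h3, Finsupp.single_eq_same]
            exact total_single _ _
          · rw [map_zero, Finsupp.single_apply, if_neg h3]
        rw [h2]; exact h1
    rw [← hwe φ, Submodule.mkQ_apply, Submodule.Quotient.mk_eq_zero]
    intro d
    rw [Finsupp.single_apply]
    split_ifs with hd
    · rw [← hd]
      have := hmain φ.1.2
      rw [hwc φ rfl (Finsupp.mem_support_iff.2 hφ)] at this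
      exact this
    · exact Submodule.zero_mem _
  · rintro g φ _ ⟨_, ⟨y, hy, rfl⟩, rfl⟩
    refine ⟨Finsupp.single ((g : Γ) • φ.1.1) (ρ g y), ⟨ρ g y, Ydir_smul hT hM g hy, rfl⟩, ?_⟩
    show _ = quotRep (famRep V ρ) (Uhat U)
      (Uhat_stable ρ _ (fun g _ _ h => Uc_smul hT hM hodd f hf hfe g h)) (g : Γ) _
    rw [Submodule.mkQ_apply, Submodule.mkQ_apply, quotRep_mk, Finsupp.lsingle_apply,
      famRep_single]

/-- `H_1(J; gr_{r+1}) = 0`. -/
theorem fil_relTor (hT : TreeAct Γ T col) (hM : IsGraded ρ M)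
    (hodd : ∀ c, col c = false → M c = ⊥) (f : X →ₗ[B] Y)
    (hf : Function.Injective f) (hfe : ∀ g x, f (σ g x) = ρ g (f x))
    {J : Subgroup Γ} {ι : Type u} (b : FreeGroupBasis ι J)
    (hJe : ∀ c, col c = false → ∀ j ∈ J, j • c = c → j = 1) (r : ℕ) :
    RelTor σ b (Fil T col (kx hM f) r) (Fil T col (kx hM f) (r + 1)) := by
  classical
  let := flagAct hT
  set U : V → Submodule B Y := fun c => Uc T hM f c r with hUdef
  have hκ := kap_sub (σ := σ) hM hodd f hf hfe
  intro z hz hsum
  set Nρ := (quotRep (famRep V ρ) (Uhat (fun c => Uc T hM f c r))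
        (Uhat_stable ρ _ (fun g _ _ h => Uc_smul hT hM hodd f hf hfe g h))).comp J.subtype
    with hNρ
  have htf : TorFree Nρ b := by
    refine torFree_of_graded b _ ?_ _ (nfam_graded hT hM hodd f hf hfe r J)
    intro j φ hφ
    have h1 : (j : Γ) • φ.1.1 = φ.1.1 := congrArg (fun p : Flag T => p.1.1) hφ
    have h2 : (j : Γ) • φ.1.2 = φ.1.2 := congrArg (fun p : Flag T => p.1.2) hφ
    have h3 := hT.col_adj φ.2
    apply Subtype.ext
    by_cases h4 : col φ.1.1 = false
    · exact hJe _ h4 _ j.2 h1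
    · have h5 : col φ.1.2 = false := by
        cases h6 : col φ.1.2
        · rfl
        · cases h7 : col φ.1.1
          · exact absurd h7 h4
          · rw [h6, h7] at h3; exact absurd rfl h3
      exact hJe _ h5 _ j.2 h2
  -- decompose z
  have hdec : ∀ i, ∃ g : V →₀ X, (∀ c, g c ∈ Xc T (kx hM f) c (r + 1)) ∧
      (∀ c, g c ≠ 0 → Typ col (r + 1) c) ∧ tot V X g = z i := fun i => mem_Fil.1 (hz i)
  have hdec' : ∀ i, ∃ g : V →₀ X, (∀ c, g c ∈ Xc T (kx hM f) c (r + 1)) ∧
      (∀ c, g c ≠ 0 → Typ col (r + 1) c) ∧ tot V X g = z i ∧ (z i = 0 → g = 0) := by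
    intro i
    by_cases h : z i = 0
    · exact ⟨0, fun _ => Submodule.zero_mem _, fun c hc => absurd rfl hc, by rw [h]; simp,
        fun _ => rfl⟩
    · obtain ⟨g, h1, h2, h3⟩ := hdec i
      exact ⟨g, h1, h2, h3, fun h' => absurd h' h⟩
  choose g hg1 hg2 hg3 hg4 using hdec'
  -- the relation family
  set F : V →₀ X := ∑ i ∈ z.support, (famRep V σ (b i : Γ) (g i) - g i) with hF
  have hFtot : tot V X F = ∑ i ∈ z.support, (σ (b i : Γ) (z i) - z i) := by
    rw [hF, map_sum]
    refine Finset.sum_congr rfl fun i _ => ?_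
    have := famRep_total σ (b i : Γ) (g i)
    rw [map_sub, hg3]
    rw [show tot V X (famRep V σ (b i : Γ) (g i)) = σ (b i : Γ) (tot V X (g i)) from this, hg3]
  have hFp : ∀ c, F c ∈ Xp T (kx hM f) c r := by
    refine fil_key hT hκ (col := col) ?_ ?_ ?_
    · intro c
      rw [hF, Finsupp.finsetSum_apply]
      refine Submodule.sum_mem _ fun i _ => ?_
      rw [Finsupp.sub_apply, famRep_apply]
      refine Submodule.sub_mem _ ?_ (hg1 i c)
      have := Xc_smul hT hκ (b i : Γ) (hg1 i ((b i : Γ)⁻¹ • c))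
      rwa [smul_inv_smul] at this
    · intro c hc
      by_contra hcon
      apply hc
      rw [hF, Finsupp.finsetSum_apply]
      refine Finset.sum_eq_zero fun i _ => ?_
      rw [Finsupp.sub_apply, famRep_apply]
      have h1 : g i c = 0 := by
        by_contra h; exact hcon (hg2 i c h)
      have h2 : g i ((b i : Γ)⁻¹ • c) = 0 := by
        by_contra h; exact hcon ((hT.typ_smul _).1 (hg2 i _ h))
      rw [h1, h2, map_zero, sub_zero]
    · rw [hFtot]; exact hsum
  -- pass to N
  let Λ : (V →₀ X) →ₗ[B] ((V →₀ Y) ⧸ Uhat U) :=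
    (Submodule.mkQ (Uhat U)).comp (Finsupp.mapRange.linearMap f)
  have hΛ : ∀ (j : J) (h : V →₀ X), Λ (famRep V σ (j : Γ) h) = Nρ j (Λ h) := by
    intro j h
    show (Uhat U).mkQ _ = quotRep (famRep V ρ) (Uhat U)
      (Uhat_stable ρ _ (fun g _ _ h => Uc_smul hT hM hodd f hf hfe g h)) (j : Γ)
      ((Uhat U).mkQ _)
    rw [Submodule.mkQ_apply, Submodule.mkQ_apply, quotRep_mk]
    congr 1
    ext c
    rw [Finsupp.mapRange.linearMap_apply, Finsupp.mapRange_apply, famRep_apply, famRep_apply,
      Finsupp.mapRange.linearMap_apply, Finsupp.mapRange_apply, hfe]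
  let zN : ι →₀ ((V →₀ Y) ⧸ Uhat U) := Finsupp.onFinset z.support (fun i => Λ (g i)) (by
    intro i hi
    rw [Finsupp.mem_support_iff]
    intro h
    apply hi
    rw [hg4 i h, map_zero])
  have hzN : ∀ i, zN i = Λ (g i) := fun i => rfl
  have hzN0 : zN = 0 := by
    apply htf
    have e : ∑ i ∈ zN.support, (Nρ (b i) (zN i) - zN i) =
        ∑ i ∈ z.support, (Nρ (b i) (zN i) - zN i) := by
      refine Finset.sum_subset Finsupp.support_onFinset_subset fun i _ hi => ?_
      rw [Finsupp.notMem_support_iff.1 hi, map_zero, sub_zero]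
    rw [e]
    have e2 : ∑ i ∈ z.support, (Nρ (b i) (zN i) - zN i) = Λ F := by
      rw [hF, map_sum]
      refine Finset.sum_congr rfl fun i _ => ?_
      rw [hzN, map_sub, hΛ]
    rw [e2]
    show (Uhat U).mkQ _ = 0
    rw [Submodule.mkQ_apply, Submodule.Quotient.mk_eq_zero]
    intro c
    rw [Finsupp.mapRange.linearMap_apply, Finsupp.mapRange_apply]
    exact Submodule.mem_sup_left ⟨F c, hFp c, rfl⟩
  intro i
  have h1 : Λ (g i) = 0 := by rw [← hzN, hzN0]; rfl
  have h2 : (Finsupp.mapRange.linearMap f) (g i) ∈ Uhat U := by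
    rw [← Submodule.Quotient.mk_eq_zero, ← Submodule.mkQ_apply]
    exact h1
  rw [← hg3 i, tot_eq]
  refine Submodule.sum_mem _ fun c hc => ?_
  have h3 := h2 c
  rw [Finsupp.mapRange.linearMap_apply, Finsupp.mapRange_apply] at h3
  have h4 := hg2 i c (Finsupp.mem_support_iff.1 hc)
  exact Xp_le_Fil hT h4 (mem_Xp_of_Uc hT hM hodd f hf hfe h4 h3)

end

end Pool.Agent.Helper59.CG
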